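import Pool.Agent.Work.MP_a2bf38_gt.G.Lev
import Pool.Agent.Work.MP_a2bf38_gt.Calc

/-!
# Linear algebra of the complex Hessian
-/

open scoped ContDiff ENNReal ComplexOrder
open Set

namespace Pool.Agent.ToricKRF.G

section J

variable {n : ℕ}

theorem J_J (u : Cn n) : J (J u) = -u := by
  simp [J, Prod.ext_iff]

theorem J_add (u w : Cn n) : J (u + w) = J u + J w := by
  ext j <;> simp [J]
  ring

theorem J_smul (c : ℝ) (u : Cn n) : J (c • u) = c • J u := by
  ext j <;> simp [J]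

theorem J_sum {κ : Type*} (s : Finset κ) (u : κ → Cn n) : J (∑ c ∈ s, u c) = ∑ c ∈ s, J (u c) := by
  classical
  induction s using Finset.induction_on with
  | empty => simp [J]
  | insert a s ha ih => rw [Finset.sum_insert ha, Finset.sum_insert ha, J_add, ih]

end J

/-- the complex coordinate `u_k` -/
noncomputable def cc {n : ℕ} (u : Cn n) (k : Fin n) : ℂ := ⟨u.1 k, u.2 k⟩

theorem cc_J {n : ℕ} (u : Cn n) (k : Fin n) : cc (J u) k = Complex.I * cc u k := by
  apply Complex.ext <;> simp [cc, J]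

/-- The real part of the polarised Levi form. -/
noncomputable def sf {n : ℕ} (f : ℝ × Cn n → ℝ) (u w : Cn n) : ℝ × Cn n → ℝ :=
  fun p => (D (0, u) (D (0, w) f) p + D (0, J u) (D (0, J w) f) p) / 4

theorem lev_eq_sf {n : ℕ} (f : ℝ × Cn n → ℝ) (u : Cn n) : lev f u = sf f u u := rfl

theorem cn_eq_sum {n : ℕ} (u : Cn n) :
    u = (∑ k, u.1 k • ((Pi.single k (1:ℝ) : Fin n → ℝ), (0 : Fin n → ℝ))) +
      ∑ k, u.2 k • ((0 : Fin n → ℝ), (Pi.single k (1:ℝ) : Fin n → ℝ)) := by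
  ext j <;> simp [Prod.fst_sum, Prod.snd_sum, Finset.sum_apply, Pi.single_apply]

theorem D_dir_cn {n : ℕ} (f : ℝ × Cn n → ℝ) (p : ℝ × Cn n) (u : Cn n) :
    D (0, u) f p = (∑ k, u.1 k * da k f p) + ∑ k, u.2 k * db k f p := by
  have h : ((0:ℝ), u) =
      (∑ k, u.1 k • ((0:ℝ), ((Pi.single k (1:ℝ) : Fin n → ℝ), (0 : Fin n → ℝ)))) +
      ∑ k, u.2 k • ((0:ℝ), ((0 : Fin n → ℝ), (Pi.single k (1:ℝ) : Fin n → ℝ))) := by
    refine Prod.ext ?_ ?_
    · simp [Prod.fst_sum]
    · conv_lhs => rw [show ((0:ℝ), u).2 = u from rfl, cn_eq_sum u]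
      simp [Prod.snd_sum]
  rw [h, D_dir_add, D_dir_sum, D_dir_sum]
  rfl

section

variable {n : ℕ} {f : ℝ × Cn n → ℝ} {U : Set (ℝ × Cn n)}

/-- second directional derivatives in coordinates -/
theorem D_D_cn (hU : IsOpen U) (hf : ContDiffOn ℝ ∞ f U) {p : ℝ × Cn n} (hp : p ∈ U)
    (u w : Cn n) :
    D (0, u) (D (0, w) f) p = ∑ k, ∑ l, (u.1 k * w.1 l * da k (da l f) p +
      u.1 k * w.2 l * da k (db l f) p + u.2 k * w.1 l * db k (da l f) p +
      u.2 k * w.2 l * db k (db l f) p) := by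
  have h1 : D ((0:ℝ), w) f = fun q => (∑ k, w.1 k * da k f q) + ∑ k, w.2 k * db k f q := by
    funext q
    exact D_dir_cn f q w
  have e1 : ∀ l, DifferentiableAt ℝ (da l f) p := fun l =>
    diffAt_of_contDiffOn hU (contDiffOn_D hU hf _) hp
  have e2 : ∀ l, DifferentiableAt ℝ (db l f) p := fun l =>
    diffAt_of_contDiffOn hU (contDiffOn_D hU hf _) hp
  have h2 : ∀ v : ℝ × Cn n, D v (D ((0:ℝ), w) f) p =
      (∑ l, w.1 l * D v (da l f) p) + ∑ l, w.2 l * D v (db l f) p := by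
    intro v
    rw [h1, D_add, D_sum, D_sum]
    · congr 1
      · exact Finset.sum_congr rfl fun l _ => D_const_mul _ (e1 l) _
      · exact Finset.sum_congr rfl fun l _ => D_const_mul _ (e2 l) _
    · exact fun l _ => (e2 l).const_mul _
    · exact fun l _ => (e1 l).const_mul _
    · exact DifferentiableAt.fun_sum fun l _ => (e1 l).const_mul _
    · exact DifferentiableAt.fun_sum fun l _ => (e2 l).const_mul _
  rw [D_dir_cn]
  have h3 : ∀ k, da k (D ((0:ℝ), w) f) p =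
      (∑ l, w.1 l * da k (da l f) p) + ∑ l, w.2 l * da k (db l f) p := fun k => h2 _
  have h4 : ∀ k, db k (D ((0:ℝ), w) f) p =
      (∑ l, w.1 l * db k (da l f) p) + ∑ l, w.2 l * db k (db l f) p := fun k => h2 _
  simp_rw [h3, h4]
  rw [← Finset.sum_add_distrib]
  refine Finset.sum_congr rfl fun k _ => ?_
  simp only [mul_add, Finset.mul_sum]
  rw [← Finset.sum_add_distrib, ← Finset.sum_add_distrib, ← Finset.sum_add_distrib]
  exact Finset.sum_congr rfl fun l _ => by ring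

/-- The real part of the polarised Levi form in terms of the complex Hessian. -/
theorem sf_eq_re (hU : IsOpen U) (hf : ContDiffOn ℝ ∞ f U) {p : ℝ × Cn n} (hp : p ∈ U)
    (u w : Cn n) :
    sf f u w p = (∑ k, ∑ l, cHess f p k l * cc u k * (starRingEnd ℂ) (cc w l)).re := by
  unfold sf
  rw [D_D_cn hU hf hp, D_D_cn hU hf hp, ← Finset.sum_add_distrib, Finset.sum_div, Complex.re_sum]
  refine Finset.sum_congr rfl fun k _ => ?_
  rw [← Finset.sum_add_distrib, Finset.sum_div, Complex.re_sum]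
  refine Finset.sum_congr rfl fun l _ => ?_
  simp [cHess, cc, J]
  ring

/-- The polarised Levi form `f_{k lbar} u_k wbar_l`. -/
theorem sf_eq (hU : IsOpen U) (hf : ContDiffOn ℝ ∞ f U) {p : ℝ × Cn n} (hp : p ∈ U)
    (u w : Cn n) :
    (⟨sf f u w p, sf f u (J w) p⟩ : ℂ) =
      ∑ k, ∑ l, cHess f p k l * cc u k * (starRingEnd ℂ) (cc w l) := by
  apply Complex.ext
  · exact sf_eq_re hU hf hp u w
  · change sf f u (J w) p = _
    rw [sf_eq_re hU hf hp, Complex.re_sum, Complex.im_sum]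
    refine Finset.sum_congr rfl fun k _ => ?_
    rw [Complex.re_sum, Complex.im_sum]
    refine Finset.sum_congr rfl fun l _ => ?_
    rw [cc_J]
    simp
    ring

theorem lev_eq_cHess (hU : IsOpen U) (hf : ContDiffOn ℝ ∞ f U) {p : ℝ × Cn n} (hp : p ∈ U)
    (u : Cn n) :
    lev f u p = (∑ k, ∑ l, cHess f p k l * (⟨u.1 k, u.2 k⟩ : ℂ) *
      (starRingEnd ℂ) ⟨u.1 l, u.2 l⟩).re :=
  sf_eq_re hU hf hp u u

theorem cc_ne_zero {u : Cn n} (hu : u ≠ 0) : cc u ≠ 0 := by
  intro h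
  apply hu
  have h1 : ∀ k, cc u k = 0 := fun k => congrFun h k
  refine Prod.ext ?_ ?_ <;> funext k
  · have := congrArg Complex.re (h1 k)
    simpa [cc] using this
  · have := congrArg Complex.im (h1 k)
    simpa [cc] using this

theorem lev_pos (hU : IsOpen U) (hf : ContDiffOn ℝ ∞ f U) {p : ℝ × Cn n} (hp : p ∈ U)
    (hpos : (cHess f p).PosDef) {u : Cn n} (hu : u ≠ 0) : 0 < lev f u p := by
  have h1 : star (cc u) ≠ 0 := by
    rw [star_ne_zero]
    exact cc_ne_zero hu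
  have h2 := hpos.dotProduct_mulVec_pos h1
  have h3 := (Complex.pos_iff.1 h2).1
  rw [lev_eq_sf, sf_eq_re hU hf hp]
  refine lt_of_lt_of_eq h3 ?_
  congr 1
  simp only [dotProduct, Matrix.mulVec, star_star, Pi.star_apply]
  refine Finset.sum_congr rfl fun k _ => ?_
  rw [Finset.mul_sum]
  exact Finset.sum_congr rfl fun l _ => by
    rw [RCLike.star_def]
    ring

end

end Pool.Agent.ToricKRF.G
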