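import Pool.Agent.Work.MP_a2bf38_gt.LCalc

/-!
# The second derivative of the logarithm of the determinant of a Hermitian matrix
-/

open scoped ContDiff ENNReal
open Set Finset

namespace Pool.Agent.ToricKRF.G

variable {V : Type*} [NormedAddCommGroup V] [NormedSpace ℝ V]

/-- The directional derivative of a complex function. -/
noncomputable def Dc (w : V) (g : V → ℂ) : V → ℂ := fun p => fderiv ℝ g p w

theorem diffAt_of_contDiffOn' {f : V → ℂ} {U : Set V} (hU : IsOpen U) (hf : ContDiffOn ℝ ∞ f U)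
    {p : V} (hp : p ∈ U) : DifferentiableAt ℝ f p :=
  (hf.differentiableOn (by simp)).differentiableAt (hU.mem_nhds hp)

theorem contDiffOn_Dc {f : V → ℂ} {U : Set V} (hU : IsOpen U) (hf : ContDiffOn ℝ ∞ f U) (w : V) :
    ContDiffOn ℝ ∞ (Dc w f) U := by
  have h1 : ContDiffOn ℝ ∞ (fderiv ℝ f) U :=
    ((contDiffOn_infty_iff_fderiv_of_isOpen hU).1 hf).2
  exact h1.clm_apply contDiffOn_const

theorem Dc_congr {f g : V → ℂ} {U : Set V} (hU : IsOpen U) (h : EqOn f g U) (w : V) :
    EqOn (Dc w f) (Dc w g) U := by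
  intro p hp
  have : f =ᶠ[nhds p] g := Filter.eventuallyEq_of_mem (hU.mem_nhds hp) h
  simp only [Dc]
  rw [this.fderiv_eq]

theorem Dc_add {f g : V → ℂ} {p : V} (hf : DifferentiableAt ℝ f p) (hg : DifferentiableAt ℝ g p)
    (w : V) : Dc w (fun q => f q + g q) p = Dc w f p + Dc w g p := by
  simp only [Dc]
  rw [fderiv_fun_add hf hg]
  simp

theorem Dc_mul {f g : V → ℂ} {p : V} (hf : DifferentiableAt ℝ f p) (hg : DifferentiableAt ℝ g p)
    (w : V) : Dc w (fun q => f q * g q) p = f p * Dc w g p + g p * Dc w f p := by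
  simp only [Dc]
  rw [fderiv_fun_mul hf hg]
  simp

theorem Dc_const_mul {f : V → ℂ} {p : V} (c : ℂ) (hf : DifferentiableAt ℝ f p) (w : V) :
    Dc w (fun q => c * f q) p = c * Dc w f p := by
  simp only [Dc]
  rw [fderiv_const_mul hf c]
  simp

theorem Dc_const (c : ℂ) (w : V) (p : V) : Dc w (fun _ : V => c) p = 0 := by
  simp [Dc]

theorem Dc_sum {κ : Type*} (s : Finset κ) {f : κ → V → ℂ} {p : V}
    (hf : ∀ k ∈ s, DifferentiableAt ℝ (f k) p) (w : V) :
    Dc w (fun q => ∑ k ∈ s, f k q) p = ∑ k ∈ s, Dc w (f k) p := by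
  simp only [Dc]
  rw [fderiv_fun_sum hf]
  simp

theorem Dc_re {f : V → ℂ} {p : V} (hf : DifferentiableAt ℝ f p) (w : V) :
    D w (fun q => (f q).re) p = (Dc w f p).re := by
  have h := (Complex.reCLM.hasFDerivAt.comp p hf.hasFDerivAt).fderiv
  have h2 : (fun q => (f q).re) = Complex.reCLM ∘ f := rfl
  simp only [D, Dc]
  rw [h2, h]
  simp

theorem Dc_im {f : V → ℂ} {p : V} (hf : DifferentiableAt ℝ f p) (w : V) :
    D w (fun q => (f q).im) p = (Dc w f p).im := by
  have h := (Complex.imCLM.hasFDerivAt.comp p hf.hasFDerivAt).fderiv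
  have h2 : (fun q => (f q).im) = Complex.imCLM ∘ f := rfl
  simp only [D, Dc]
  rw [h2, h]
  simp

theorem Dc_conj {f : V → ℂ} {p : V} (hf : DifferentiableAt ℝ f p) (w : V) :
    Dc w (fun q => (starRingEnd ℂ) (f q)) p = (starRingEnd ℂ) (Dc w f p) := by
  have h := (Complex.conjCLE.toContinuousLinearMap.hasFDerivAt.comp p hf.hasFDerivAt).fderiv
  have h2 : (fun q => (starRingEnd ℂ) (f q)) = Complex.conjCLE.toContinuousLinearMap ∘ f := rfl
  simp only [Dc]
  rw [h2, h]
  simp

theorem Dc_prod {m : ℕ} {f : Fin m → V → ℂ} {p : V}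
    (hf : ∀ k, DifferentiableAt ℝ (f k) p) (w : V) :
    Dc w (fun q => ∏ k, f k q) p = ∑ i, (∏ j ∈ univ.erase i, f j p) * Dc w (f i) p := by
  simp only [Dc]
  rw [fderiv_finsetProd fun i _ => hf i]
  simp

section det

variable {m : ℕ} {M : V → Matrix (Fin m) (Fin m) ℂ} {p : V}

theorem diffAt_prod (hM : ∀ i j, DifferentiableAt ℝ (fun q => M q i j) p)
    (σ : Equiv.Perm (Fin m)) : DifferentiableAt ℝ (fun q => ∏ i, M q (σ i) i) p :=
  (HasFDerivAt.finsetProd (u := Finset.univ) (g := fun i q => M q (σ i) i)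
    fun i _ => (hM (σ i) i).hasFDerivAt).differentiableAt

theorem diffAt_det (hM : ∀ i j, DifferentiableAt ℝ (fun q => M q i j) p) :
    DifferentiableAt ℝ (fun q => (M q).det) p := by
  simp_rw [Matrix.det_apply']
  exact DifferentiableAt.fun_sum fun σ _ => (diffAt_prod hM σ).const_mul _

theorem contDiffOn_det {U : Set V} (hM : ∀ i j, ContDiffOn ℝ ∞ (fun q => M q i j) U) :
    ContDiffOn ℝ ∞ (fun q => (M q).det) U := by
  simp_rw [Matrix.det_apply']
  exact ContDiffOn.sum fun σ _ => contDiffOn_const.mul (contDiffOn_prod fun i _ => hM _ _)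

/-- Jacobi's formula -/
theorem Dc_det (hM : ∀ i j, DifferentiableAt ℝ (fun q => M q i j) p) (w : V) :
    Dc w (fun q => (M q).det) p =
      ∑ i, ∑ j, (M p).adjugate i j * Dc w (fun q => M q j i) p := by
  have h1 : ∀ i, ∑ j, (M p).adjugate i j * Dc w (fun q => M q j i) p =
      ((M p).updateCol i (fun j => Dc w (fun q => M q j i) p)).det := by
    intro i
    rw [← Matrix.cramer_apply, Matrix.cramer_eq_adjugate_mulVec]
    rfl
  simp_rw [h1, Matrix.det_apply']
  rw [Dc_sum, Finset.sum_comm]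
  · refine Finset.sum_congr rfl fun σ _ => ?_
    rw [Dc_const_mul _ (diffAt_prod hM σ), Dc_prod (f := fun i q => M q (σ i) i) fun i => hM _ _,
      Finset.mul_sum]
    refine Finset.sum_congr rfl fun i _ => ?_
    congr 1
    rw [← Finset.mul_prod_erase univ _ (Finset.mem_univ i), Matrix.updateCol_self, mul_comm]
    congr 1
    refine Finset.prod_congr rfl fun j hj => ?_
    rw [Matrix.updateCol_ne (Finset.ne_of_mem_erase hj)]
  · exact fun σ _ => (diffAt_prod hM σ).const_mul _

theorem diffAt_adjugate (hM : ∀ i j, DifferentiableAt ℝ (fun q => M q i j) p) (i j : Fin m) :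
    DifferentiableAt ℝ (fun q => (M q).adjugate i j) p := by
  simp_rw [Matrix.adjugate_apply]
  apply diffAt_det
  intro a b
  by_cases h : a = j
  · subst h
    simp
  · simpa [Matrix.updateRow_ne h] using hM a b

/-- derivative of the adjugate at a point where the matrix is `1` -/
theorem Dc_adjugate (hM : ∀ i j, DifferentiableAt ℝ (fun q => M q i j) p) (h1 : M p = 1) (w : V)
    (i j : Fin m) :
    Dc w (fun q => (M q).adjugate i j) p =
      (if i = j then Dc w (fun q => (M q).det) p else 0) - Dc w (fun q => M q i j) p := by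
  have h2 : (fun q => ∑ k, (M q).adjugate i k * M q k j) =
      fun q => (M q).det * (1 : Matrix (Fin m) (Fin m) ℂ) i j := by
    funext q
    have := congrFun (congrFun (Matrix.adjugate_mul (M q)) i) j
    rw [Matrix.mul_apply] at this
    rw [this]
    rfl
  have h3 : Dc w (fun q => ∑ k, (M q).adjugate i k * M q k j) p =
      Dc w (fun q => (M q).det * (1 : Matrix (Fin m) (Fin m) ℂ) i j) p := by rw [h2]
  rw [Dc_sum (f := fun k q => (M q).adjugate i k * M q k j) _
    fun k _ => (diffAt_adjugate hM i k).fun_mul (hM k j),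
    Dc_mul (f := fun q => (M q).det) (diffAt_det hM) (differentiableAt_const _), Dc_const] at h3
  have h4 : ∀ k, Dc w (fun q => (M q).adjugate i k * M q k j) p =
      (if k = i then Dc w (fun q => M q k j) p else 0) +
        (if k = j then Dc w (fun q => (M q).adjugate i k) p else 0) := by
    intro k
    rw [Dc_mul (f := fun q => (M q).adjugate i k) (g := fun q => M q k j)
      (diffAt_adjugate hM i k) (hM k j), h1, Matrix.adjugate_one, Matrix.one_apply,
      Matrix.one_apply]
    simp only [ite_mul, one_mul, zero_mul, eq_comm]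
  simp_rw [h4] at h3
  rw [Finset.sum_add_distrib, Finset.sum_ite_eq' , Finset.sum_ite_eq'] at h3
  simp only [Finset.mem_univ, if_true, mul_zero, zero_add, Matrix.one_apply, ite_mul, one_mul,
    zero_mul] at h3
  rw [← h3]
  ring

theorem Dc_Dc_det {U : Set V} (hU : IsOpen U) (hM : ∀ i j, ContDiffOn ℝ ∞ (fun q => M q i j) U)
    (hp : p ∈ U) (h1 : M p = 1) (a b : V) :
    Dc a (Dc b (fun q => (M q).det)) p =
      (∑ i, Dc a (fun q => M q i i) p) * (∑ i, Dc b (fun q => M q i i) p)
        - (∑ i, ∑ j, Dc a (fun q => M q i j) p * Dc b (fun q => M q j i) p)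
        + ∑ i, Dc a (Dc b (fun q => M q i i)) p := by
  have hd : ∀ q ∈ U, ∀ i j, DifferentiableAt ℝ (fun q => M q i j) q := fun q hq i j =>
    diffAt_of_contDiffOn' hU (hM i j) hq
  have h2 : EqOn (Dc b (fun q => (M q).det))
      (fun q => ∑ i, ∑ j, (M q).adjugate i j * Dc b (fun q => M q j i) q) U :=
    fun q hq => Dc_det (hd q hq) b
  have hD : ∀ i j, DifferentiableAt ℝ (Dc b (fun q => M q i j)) p := fun i j =>
    diffAt_of_contDiffOn' hU (contDiffOn_Dc hU (hM i j) b) hp
  have hadj := diffAt_adjugate (hd p hp)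
  have hdet : Dc a (fun q => (M q).det) p = ∑ i, Dc a (fun q => M q i i) p := by
    rw [Dc_det (hd p hp), h1, Matrix.adjugate_one]
    refine Finset.sum_congr rfl fun i _ => ?_
    simp [Matrix.one_apply]
  have hAD : ∀ i j, DifferentiableAt ℝ
      (fun q => (M q).adjugate i j * Dc b (fun q => M q j i) q) p := fun i j =>
    (hadj i j).fun_mul (hD j i)
  rw [Dc_congr hU h2 a hp,
    Dc_sum (f := fun i q => ∑ j, (M q).adjugate i j * Dc b (fun q => M q j i) q) _
      fun i _ => DifferentiableAt.fun_sum fun j _ => hAD i j]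
  have h3 : ∀ i, Dc a (fun q => ∑ j, (M q).adjugate i j * Dc b (fun q => M q j i) q) p =
      Dc a (Dc b (fun q => M q i i)) p + (∑ i, Dc a (fun q => M q i i) p) *
        Dc b (fun q => M q i i) p - ∑ j, Dc a (fun q => M q i j) p * Dc b (fun q => M q j i) p := by
    intro i
    rw [Dc_sum (f := fun j q => (M q).adjugate i j * Dc b (fun q => M q j i) q) _
      fun j _ => hAD i j]
    have h4 : ∀ j, Dc a (fun q => (M q).adjugate i j * Dc b (fun q => M q j i) q) p =
        (if i = j then Dc a (Dc b (fun q => M q j i)) p else 0) +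
          (if i = j then (∑ i, Dc a (fun q => M q i i) p) * Dc b (fun q => M q j i) p else 0) -
          Dc a (fun q => M q i j) p * Dc b (fun q => M q j i) p := by
      intro j
      rw [Dc_mul (f := fun q => (M q).adjugate i j) (hadj i j) (hD j i), Dc_adjugate (hd p hp) h1, hdet, h1, Matrix.adjugate_one,
        Matrix.one_apply]
      split_ifs <;> ring
    simp_rw [h4]
    rw [Finset.sum_sub_distrib, Finset.sum_add_distrib, Finset.sum_ite_eq, Finset.sum_ite_eq]
    simp
  simp_rw [h3]
  rw [Finset.sum_sub_distrib, Finset.sum_add_distrib, ← Finset.mul_sum]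
  ring

/-- The second derivative of `log det M` at a point where the Hermitian matrix `M` is `1`. -/
theorem D_D_logdet {U : Set V} (hU : IsOpen U) (hM : ∀ i j, ContDiffOn ℝ ∞ (fun q => M q i j) U)
    (hp : p ∈ U) (h1 : M p = 1) (hh : ∀ q ∈ U, (M q).IsHermitian) (a : V) :
    D a (D a (fun q => Real.log (M q).det.re)) p =
      (∑ i, D a (D a (fun q => (M q i i).re)) p)
        - ∑ i, ∑ j, Complex.normSq (Dc a (fun q => M q i j) p) := by
  have hd : ∀ q ∈ U, ∀ i j, DifferentiableAt ℝ (fun q => M q i j) q := fun q hq i j =>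
    diffAt_of_contDiffOn' hU (hM i j) hq
  have hcd := contDiffOn_det hM
  have hδ : ContDiffAt ℝ 2 (fun q => (M q).det.re) p := by
    have : ContDiffOn ℝ ∞ (fun q => (M q).det.re) U := Complex.reCLM.contDiff.comp_contDiffOn hcd
    exact (this.contDiffAt (hU.mem_nhds hp)).of_le (WithTop.coe_le_coe.2 le_top)
  have hδ1 : (M p).det.re = 1 := by rw [h1]; simp
  rw [LC.D_D_log a a hδ (by rw [hδ1]; norm_num), hδ1]
  have h2 : EqOn (D a (fun q => (M q).det.re)) (fun q => (Dc a (fun q => (M q).det) q).re) U :=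
    fun q hq => Dc_re (diffAt_det (hd q hq)) a
  rw [D_congr hU h2 a hp, Dc_re (diffAt_of_contDiffOn' hU (contDiffOn_Dc hU hcd a) hp),
    Dc_Dc_det hU hM hp h1, h2 hp]
  have hdet : Dc a (fun q => (M q).det) p = ∑ i, Dc a (fun q => M q i i) p := by
    rw [Dc_det (hd p hp), h1, Matrix.adjugate_one]
    refine Finset.sum_congr rfl fun i _ => ?_
    simp [Matrix.one_apply]
  -- the trace is real
  have him : (∑ i, Dc a (fun q => M q i i) p).im = 0 := by
    rw [Complex.im_sum]
    refine Finset.sum_eq_zero fun i _ => ?_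
    rw [← Dc_im (hd p hp i i)]
    have h3 : EqOn (fun q => (M q i i).im) (fun _ => (0:ℝ)) U := by
      intro q hq
      have := (hh q hq).apply i i
      exact Complex.conj_eq_iff_im.1 this
    rw [D_congr hU h3 a hp, D_const]
  have hh2 : ∀ i j, Dc a (fun q => M q j i) p = (starRingEnd ℂ) (Dc a (fun q => M q i j) p) := by
    intro i j
    rw [← Dc_conj (hd p hp i j)]
    have h3 : EqOn (fun q => M q j i) (fun q => (starRingEnd ℂ) (M q i j)) U := by
      intro q hq
      exact ((hh q hq).apply j i).symm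
    exact Dc_congr hU h3 a hp
  have h5 : ∀ i j, Dc a (fun q => M q i j) p * Dc a (fun q => M q j i) p =
      (Complex.normSq (Dc a (fun q => M q i j) p) : ℂ) := by
    intro i j
    rw [hh2 i j, Complex.mul_conj]
  have h6 : ∀ i, (Dc a (Dc a (fun q => M q i i)) p).re = D a (D a (fun q => (M q i i).re)) p := by
    intro i
    rw [← Dc_re (diffAt_of_contDiffOn' hU (contDiffOn_Dc hU (hM i i) a) hp)]
    have h3 : EqOn (D a (fun q => (M q i i).re)) (fun q => (Dc a (fun q => M q i i) q).re) U :=
      fun q hq => Dc_re (hd q hq i i) a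
    exact (D_congr hU h3 a hp).symm
  simp_rw [h5]
  rw [hdet]
  simp only [Complex.add_re, Complex.sub_re, Complex.mul_re, Complex.re_sum, him, h6,
    Complex.ofReal_re]
  ring

end det

end Pool.Agent.ToricKRF.G
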