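import Pool.Agent.Work.MP_a2bf38_gt.G.Chart
import Pool.Agent.Work.MP_a2bf38_gt.G.Herm

/-!
# The charts of a Kähler family on a toric manifold: positivity and bounds
-/

open scoped ContDiff ENNReal ComplexOrder
open Set Filter Topology

namespace Pool.Agent.ToricKRF.G

variable {n : ℕ} {ι : Type}

theorem cHess_isHermitian {f : ℝ × Cn n → ℝ} {U : Set (ℝ × Cn n)} (hU : IsOpen U)
    (hf : ContDiffOn ℝ ∞ f U) {p : ℝ × Cn n} (hp : p ∈ U) : (cHess f p).IsHermitian := by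
  ext k l
  simp only [cHess, Matrix.conjTranspose_apply, Matrix.of_apply]
  have h1 : da k (da l f) p = da l (da k f) p := D_comm hU hf hp _ _
  have h2 : db k (db l f) p = db l (db k f) p := D_comm hU hf hp _ _
  have h3 : da k (db l f) p = db l (da k f) p := D_comm hU hf hp _ _
  have h4 : db k (da l f) p = da l (db k f) p := D_comm hU hf hp _ _
  apply Complex.ext
  · simp [h1, h2]
  · simp [h3, h4]
    ring

theorem posDef_of_lev {f : ℝ × Cn n → ℝ} {U : Set (ℝ × Cn n)} (hU : IsOpen U)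
    (hf : ContDiffOn ℝ ∞ f U) {p : ℝ × Cn n} (hp : p ∈ U)
    (hpos : ∀ u : Cn n, u ≠ 0 → 0 < lev f u p) : (cHess f p).PosDef := by
  refine Matrix.PosDef.of_dotProduct_mulVec_pos (cHess_isHermitian hU hf hp) ?_
  intro x hx
  set u : Cn n := (fun k => (x k).re, fun k => -(x k).im) with hu
  have hcc : ∀ k, cc u k = (starRingEnd ℂ) (x k) := by
    intro k
    apply Complex.ext <;> simp [cc, hu]
  have hu0 : u ≠ 0 := by
    intro h
    apply hx
    ext k
    have h1 : cc u k = 0 := by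
      rw [h]
      rfl
    rw [hcc, map_eq_zero] at h1
    simpa using h1
  have h1 : star x ⬝ᵥ (cHess f p).mulVec x = (⟨sf f u u p, sf f u (J u) p⟩ : ℂ) := by
    rw [sf_eq hU hf hp]
    simp only [dotProduct, Matrix.mulVec, Finset.mul_sum, Pi.star_apply, hcc]
    refine Finset.sum_congr rfl fun k _ => Finset.sum_congr rfl fun l _ => ?_
    simp only [RCLike.star_def, Complex.conj_conj]
    ring
  have h2 : sf f u (J u) p = 0 := by
    simp only [sf, J_J]
    have h3 : D (0, J u) (D (0, -u) f) p = -D (0, J u) (D (0, u) f) p := by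
      have h4 : D (0, -u) f = fun q => (-1 : ℝ) * D (0, u) f q := by
        funext q
        have h5 : ((0 : ℝ), -u) = -((0 : ℝ), u) := by simp
        rw [h5, D_dir_neg]
        ring
      rw [h4, D_const_mul _ (diffAt_of_contDiffOn hU (contDiffOn_D hU hf _) hp)]
      ring
    rw [h3, D_comm hU hf hp (0, u) (0, J u)]
    ring
  rw [h1, h2, Complex.pos_iff]
  exact ⟨hpos u hu0, rfl⟩

/-- Second derivatives as iterated Fréchet derivatives on an open set. -/
theorem DD_eq_fderiv_of_mem {V : Type*} [NormedAddCommGroup V] [NormedSpace ℝ V] {f : V → ℝ}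
    {U : Set V} (hU : IsOpen U) (hf : ContDiffOn ℝ ∞ f U) {p : V} (hp : p ∈ U) (a b : V) :
    D a (D b f) p = fderiv ℝ (fderiv ℝ f) p a b := by
  have h1 : ContDiffOn ℝ ∞ (fderiv ℝ f) U :=
    ((contDiffOn_infty_iff_fderiv_of_isOpen hU).1 hf).2
  have h2 : DifferentiableAt ℝ (fderiv ℝ f) p :=
    (h1.differentiableOn (by simp)).differentiableAt (hU.mem_nhds hp)
  change fderiv ℝ (fun y => (fderiv ℝ f y) b) p a = _
  rw [fderiv_clm_apply h2 (differentiableAt_const b)]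
  simp

theorem continuousOn_lev {f : ℝ × Cn n → ℝ} {U : Set (ℝ × Cn n)} (hU : IsOpen U)
    (hf : ContDiffOn ℝ ∞ f U) :
    ContinuousOn (fun q : (ℝ × Cn n) × Cn n => lev f q.2 q.1) (U ×ˢ univ) := by
  have h1 : ContDiffOn ℝ ∞ (fderiv ℝ f) U :=
    ((contDiffOn_infty_iff_fderiv_of_isOpen hU).1 hf).2
  have h2 : ContDiffOn ℝ ∞ (fderiv ℝ (fderiv ℝ f)) U :=
    ((contDiffOn_infty_iff_fderiv_of_isOpen hU).1 h1).2
  have h3 : ContinuousOn (fun q : (ℝ × Cn n) × Cn n => fderiv ℝ (fderiv ℝ f) q.1) (U ×ˢ univ) :=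
    h2.continuousOn.comp continuousOn_fst (fun q hq => hq.1)
  have h4 : Continuous fun q : (ℝ × Cn n) × Cn n => (((0 : ℝ), q.2) : ℝ × Cn n) := by fun_prop
  have h5 : Continuous fun q : (ℝ × Cn n) × Cn n => (((0 : ℝ), J q.2) : ℝ × Cn n) := by
    unfold J
    fun_prop
  have h6 : ContinuousOn (fun q : (ℝ × Cn n) × Cn n =>
      (fderiv ℝ (fderiv ℝ f) q.1 (0, q.2) (0, q.2) +
        fderiv ℝ (fderiv ℝ f) q.1 (0, J q.2) (0, J q.2)) / 4) (U ×ˢ univ) :=
    (((h3.clm_apply h4.continuousOn).clm_apply h4.continuousOn).add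
      ((h3.clm_apply h5.continuousOn).clm_apply h5.continuousOn)).div_const 4
  refine h6.congr ?_
  rintro ⟨p, u⟩ ⟨hp, _⟩
  simp only [lev]
  rw [DD_eq_fderiv_of_mem hU hf hp, DD_eq_fderiv_of_mem hU hf hp]

theorem lev_smul (f : ℝ × Cn n → ℝ) (r : ℝ) (u : Cn n) {U : Set (ℝ × Cn n)} (hU : IsOpen U)
    (hf : ContDiffOn ℝ ∞ f U) {p : ℝ × Cn n} (hp : p ∈ U) : lev f (r • u) p = r ^ 2 * lev f u p := by
  simp only [lev]
  rw [DD_eq_fderiv_of_mem hU hf hp, DD_eq_fderiv_of_mem hU hf hp, DD_eq_fderiv_of_mem hU hf hp,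
    DD_eq_fderiv_of_mem hU hf hp, J_smul]
  have h1 : ((0 : ℝ), r • u) = r • ((0 : ℝ), u) := by simp
  have h2 : ((0 : ℝ), r • J u) = r • ((0 : ℝ), J u) := by simp
  rw [h1, h2]
  simp only [map_smul, smul_apply, smul_eq_mul]
  ring

namespace ChartG

variable {F : SmoothCompleteFan n ι} {T : ℝ} {φ : ℝ × Cn n → ℝ} {σ : Fin n → ι}
  (d : ChartG F T φ σ)

theorem cmul_ne_zero (ζ : Cn n) {u : Cn n} (hu : u ≠ 0) : cmul (cexp ζ) u ≠ 0 := by
  intro h
  apply hu
  have h1 : ∀ k, u.1 k = 0 ∧ u.2 k = 0 := by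
    intro k
    have e1 : (cexp ζ).1 k * u.1 k - (cexp ζ).2 k * u.2 k = 0 := congrFun (congrArg Prod.fst h) k
    have e2 : (cexp ζ).1 k * u.2 k + (cexp ζ).2 k * u.1 k = 0 := congrFun (congrArg Prod.snd h) k
    have e3 : (cexp ζ).1 k ^ 2 + (cexp ζ).2 k ^ 2 = Real.exp (ζ.1 k) ^ 2 := by
      simp only [cexp]
      have := Real.sin_sq_add_cos_sq (ζ.2 k)
      linear_combination Real.exp (ζ.1 k) ^ 2 * this
    have e4 : Real.exp (ζ.1 k) ^ 2 ≠ 0 := by positivity
    constructor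
    · have : Real.exp (ζ.1 k) ^ 2 * u.1 k = 0 := by
        rw [← e3]
        linear_combination (cexp ζ).1 k * e1 + (cexp ζ).2 k * e2
      exact (mul_eq_zero.1 this).resolve_left e4
    · have : Real.exp (ζ.1 k) ^ 2 * u.2 k = 0 := by
        rw [← e3]
        linear_combination (cexp ζ).1 k * e2 - (cexp ζ).2 k * e1
      exact (mul_eq_zero.1 this).resolve_left e4
  refine Prod.ext ?_ ?_ <;> funext k
  · exact (h1 k).1
  · exact (h1 k).2

include d in
theorem lev_pos' {t : ℝ} (ht : t ∈ Ico 0 T) (w : Cn n) {u : Cn n} (hu : u ≠ 0) :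
    0 < lev φ u (t, w) := by
  obtain ⟨ζ, rfl⟩ := exists_cpt F d.mem w
  obtain ⟨u', rfl⟩ := exists_cpt F d.mem u
  rw [d.lev_eq ht]
  apply lev_pos d.isOpen_W d.smooth_ψ (d.mem_W ht _) (d.pos t ht _)
  apply cmul_ne_zero
  intro h
  apply hu
  rw [h]
  simp [cpt, F.pt_zero]

/-- Bound of the metric of a chart on compact sets. -/
theorem lev_bound {t' : ℝ} (ht' : t' < T) (R : ℝ) : ∃ C : ℝ, 1 ≤ C ∧ ∀ t ∈ Icc 0 t',
    ∀ z u : Cn n, ‖z‖ ≤ 1 → ‖u‖ ≤ R → lev d.ψ u (t, z) ≤ C := by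
  set K : Set ((ℝ × Cn n) × Cn n) :=
    (Icc 0 t' ×ˢ Metric.closedBall 0 1) ×ˢ Metric.closedBall 0 R with hK
  have hKc : IsCompact K :=
    (isCompact_Icc.prod (isCompact_closedBall _ _)).prod (isCompact_closedBall _ _)
  have hc : ContinuousOn (fun q : (ℝ × Cn n) × Cn n => lev d.ψ q.2 q.1) K := by
    refine (continuousOn_lev d.isOpen_W d.smooth_ψ).mono ?_
    rintro ⟨⟨t, z⟩, u⟩ ⟨⟨ht, _⟩, _⟩
    exact ⟨d.mem_W ⟨ht.1, lt_of_le_of_lt ht.2 ht'⟩ z, mem_univ _⟩
  obtain ⟨C, hC⟩ := hKc.exists_bound_of_continuousOn hc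
  refine ⟨|C| + 1, by linarith [abs_nonneg C], fun t ht z u hz hu => ?_⟩
  have h1 := hC ((t, z), u) ⟨⟨ht, by simpa using hz⟩, by simpa using hu⟩
  rw [Real.norm_eq_abs] at h1
  have h2 := le_abs_self (lev d.ψ u (t, z))
  have h3 := le_abs_self C
  simp only at h1
  linarith

end ChartG

theorem norm_cexp_le {ζ : Cn n} (hζ : ∀ k, ζ.1 k ≤ 0) : ‖cexp ζ‖ ≤ 1 := by
  rw [Prod.norm_def]
  refine max_le ?_ ?_ <;> rw [pi_norm_le_iff_of_nonneg zero_le_one] <;> intro k <;>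
    rw [Real.norm_eq_abs]
  · simp only [cexp, abs_mul, abs_of_pos (Real.exp_pos _)]
    exact mul_le_one₀ (Real.exp_le_one_iff.2 (hζ k)) (abs_nonneg _) (Real.abs_cos_le_one _)
  · simp only [cexp, abs_mul, abs_of_pos (Real.exp_pos _)]
    exact mul_le_one₀ (Real.exp_le_one_iff.2 (hζ k)) (abs_nonneg _) (Real.abs_sin_le_one _)

/-- The bound in a chart. -/
theorem ChartG.bound [Fintype ι] [DecidableEq ι] {F : SmoothCompleteFan n ι} {T : ℝ}
    {φ : ℝ × Cn n → ℝ} {σ : Fin n → ι} (d : ChartG F T φ σ) {t' : ℝ} (ht' : t' < T) :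
    ∃ C : ℝ, 1 ≤ C ∧ ∀ y : Fin n → ℝ, (∀ k, y k ≤ 0) → ∀ t ∈ Icc 0 t', ∀ b : Fin n → ℝ, ∀ i,
      Fv φ (F.vec i) (t, (F.pt σ y, b)) ≤
        C * Real.exp (2 * ∑ k, if σ k = i then y k else 0) := by
  classical
  choose a ha using fun i => F.exists_pt d.mem (F.vec i)
  obtain ⟨C, hC1, hC⟩ := d.lev_bound ht' (1 + ∑ i, ‖a i‖)
  have hsum : 0 ≤ ∑ i, ‖a i‖ := Finset.sum_nonneg fun i _ => norm_nonneg _
  refine ⟨C, hC1, fun y hy t ht b i => ?_⟩
  have htT : t ∈ Ico 0 T := ⟨ht.1, lt_of_le_of_lt ht.2 ht'⟩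
  obtain ⟨b', rfl⟩ := F.exists_pt d.mem b
  have hz : ‖cexp ((y, b') : Cn n)‖ ≤ 1 := norm_cexp_le hy
  by_cases hi : i ∈ range σ
  · obtain ⟨k, rfl⟩ := hi
    have h1 : (∑ j, if σ j = σ k then y j else 0) = y k := by
      rw [Finset.sum_eq_single k]
      · simp
      · intro j _ hj
        rw [if_neg]
        intro h2
        exact hj (F.injective_of_mem d.mem h2)
      · simp
    rw [h1]
    set û : Cn n := (Real.cos (b' k) • Pi.single k (1 : ℝ), Real.sin (b' k) • Pi.single k (1 : ℝ))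
      with hû
    have h2 : Fv φ (F.vec (σ k)) (t, (F.pt σ y, F.pt σ b')) =
        lev φ (cpt F σ (Pi.single k 1, 0)) (t, cpt F σ (y, b')) := by
      simp [Fv, cpt, F.pt_single, F.pt_zero]
    have h3 : cmul (cexp ((y, b') : Cn n)) (Pi.single k 1, 0) = Real.exp (y k) • û := by
      refine Prod.ext ?_ ?_ <;> funext j <;> by_cases hj : j = k
      · subst hj; simp [cmul, cexp, hû]
      · simp [cmul, cexp, hû, Pi.single_eq_of_ne hj]
      · subst hj; simp [cmul, cexp, hû]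
      · simp [cmul, cexp, hû, Pi.single_eq_of_ne hj]
    have h4 : ‖û‖ ≤ 1 := by
      rw [Prod.norm_def]
      refine max_le ?_ ?_
      · simp only [hû, norm_smul, Real.norm_eq_abs]
        have : ‖(Pi.single k (1 : ℝ) : Fin n → ℝ)‖ ≤ 1 := by
          rw [pi_norm_le_iff_of_nonneg zero_le_one]
          intro j
          by_cases hj : j = k
          · subst hj; simp
          · simp [Pi.single_eq_of_ne hj]
        exact mul_le_one₀ (Real.abs_cos_le_one _) (norm_nonneg _) this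
      · simp only [hû, norm_smul, Real.norm_eq_abs]
        have : ‖(Pi.single k (1 : ℝ) : Fin n → ℝ)‖ ≤ 1 := by
          rw [pi_norm_le_iff_of_nonneg zero_le_one]
          intro j
          by_cases hj : j = k
          · subst hj; simp
          · simp [Pi.single_eq_of_ne hj]
        exact mul_le_one₀ (Real.abs_sin_le_one _) (norm_nonneg _) this
    rw [h2, d.lev_eq htT, h3, lev_smul _ _ _ d.isOpen_W d.smooth_ψ (d.mem_W htT _)]
    have h5 := hC t ht _ û hz (h4.trans (by linarith))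
    have h6 : Real.exp (y k) ^ 2 = Real.exp (2 * y k) := by
      rw [← Real.exp_nat_mul]
      push_cast
      rfl
    rw [h6, mul_comm]
    exact mul_le_mul_of_nonneg_right h5 (Real.exp_pos _).le
  · have h1 : (∑ j, if σ j = i then y j else 0) = 0 := by
      apply Finset.sum_eq_zero
      intro j _
      rw [if_neg]
      intro h2
      exact hi ⟨j, h2⟩
    rw [h1, mul_zero, Real.exp_zero, mul_one]
    have h2 : Fv φ (F.vec i) (t, (F.pt σ y, F.pt σ b')) =
        lev φ (cpt F σ (a i, 0)) (t, cpt F σ (y, b')) := by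
      simp [Fv, cpt, ha, F.pt_zero]
    rw [h2, d.lev_eq htT]
    apply hC t ht _ _ hz
    have h3 : ‖cmul (cexp ((y, b') : Cn n)) (a i, 0)‖ ≤ ‖a i‖ := by
      have hz1 : ∀ k, |(cexp ((y, b') : Cn n)).1 k| ≤ 1 := fun k =>
        ((norm_le_pi_norm _ k).trans (norm_fst_le _)).trans hz
      have hz2 : ∀ k, |(cexp ((y, b') : Cn n)).2 k| ≤ 1 := fun k =>
        ((norm_le_pi_norm _ k).trans (norm_snd_le _)).trans hz
      have ha' : ∀ k, |a i k| ≤ ‖a i‖ := fun k => norm_le_pi_norm (a i) k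
      rw [Prod.norm_def]
      refine max_le ?_ ?_ <;> rw [pi_norm_le_iff_of_nonneg (norm_nonneg _)] <;> intro k <;>
        rw [Real.norm_eq_abs]
      · simp only [cmul, Pi.zero_apply, mul_zero, sub_zero, abs_mul]
        calc _ ≤ 1 * ‖a i‖ := mul_le_mul (hz1 k) (ha' k) (abs_nonneg _) zero_le_one
          _ = _ := one_mul _
      · simp only [cmul, Pi.zero_apply, mul_zero, zero_add, abs_mul]
        calc _ ≤ 1 * ‖a i‖ := mul_le_mul (hz2 k) (ha' k) (abs_nonneg _) zero_le_one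
          _ = _ := one_mul _
    have h4 : ‖a i‖ ≤ ∑ i, ‖a i‖ :=
      Finset.single_le_sum (f := fun i => ‖a i‖) (fun j _ => norm_nonneg _) (Finset.mem_univ i)
    linarith

theorem chart_facts {n : ℕ} {ι : Type} [Fintype ι] (F : SmoothCompleteFan n ι) {T : ℝ}
    {φ : ℝ × Cn n → ℝ} (h : IsKahlerFamily F T φ) :
    Submodule.span ℝ (range F.vec) = ⊤ ∧ (∀ i, F.vec i ≠ 0) ∧
    (∀ t ∈ Ico 0 T, ∀ (v : Fin n → ℝ) (a b : Fin n → ℝ) (m : Fin n → ℤ),
      Fv φ v (t, (a, fun j => b j + 2 * Real.pi * m j)) = Fv φ v (t, (a, b))) ∧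
    (∀ t ∈ Ico 0 T, ∀ w : Cn n, (cHess φ (t, w)).PosDef) ∧
    (∀ t' ∈ Ico 0 T, ∃ C : ℝ, 1 ≤ C ∧ ∀ a : Fin n → ℝ, ∃ c : ι → ℝ, (∀ i, 0 ≤ c i) ∧
      a = -∑ i, c i • F.vec i ∧ ∀ t ∈ Icc 0 t', ∀ b : Fin n → ℝ, ∀ i,
        Fv φ (F.vec i) (t, (a, b)) ≤ C * Real.exp (-(2 * c i))) := by
  classical
  obtain ⟨σ₀, hσ₀, _⟩ := F.complete 0
  obtain ⟨d₀⟩ := exists_chartG h hσ₀
  refine ⟨?_, ?_, ?_, ?_, ?_⟩
  · rw [eq_top_iff]
    intro x _
    obtain ⟨y, rfl⟩ := F.exists_pt hσ₀ x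
    exact Submodule.sum_mem _ fun k _ => Submodule.smul_mem _ _
      (Submodule.subset_span (mem_range_self _))
  · intro i hi
    obtain ⟨σ, hσ, k, rfl⟩ := F.used i
    have h1 : F.pt σ (Pi.single k 1) = F.pt σ 0 := by
      rw [F.pt_single, hi, F.pt_zero, smul_zero]
    have h2 := congrFun (F.pt_injective hσ h1) k
    simp at h2
  · intro t ht v a b m
    have hφ := lev_eq_lev0 d₀.isOpen_U d₀.smooth_φ (d₀.mem_U ht)
    simp only [Fv]
    rw [hφ, hφ]
    set c : Cn n := (0, fun j => 2 * Real.pi * m j) with hc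
    have hper : (fun y => φ (t, y + c)) = fun y => φ (t, y) := by
      funext y
      have := d₀.periodic ht y.1 y.2 m
      rw [← this]
      congr 2
      ext j <;> simp [hc]
    have h1 : ∀ (g : Cn n → ℝ) (u z : Cn n), D u g (z + c) = D u (fun y => g (y + c)) z := by
      intro g u z
      simp only [D]
      rw [fderiv_comp_add_right]
    have h2 : ∀ (u z : Cn n), D u (D u fun y => φ (t, y)) (z + c) =
        D u (D u fun y => φ (t, y)) z := by
      intro u z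
      rw [h1]
      have h3 : (fun y => D u (fun y => φ (t, y)) (y + c)) = D u fun y => φ (t, y) := by
        funext y
        rw [h1, hper]
      rw [h3]
    have h4 : (a, fun j => b j + 2 * Real.pi * m j) = ((a, b) : Cn n) + c := by
      ext j <;> simp [hc]
    rw [h4]
    simp only [lev0, h2]
  · intro t ht w
    exact posDef_of_lev d₀.isOpen_U d₀.smooth_φ (d₀.mem_U ht w) fun u hu => d₀.lev_pos' ht w hu
  · intro t' ht'
    have hfin : F.cones.Finite := Set.toFinite _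
    have hex : ∀ σ : Fin n → ι, ∃ C : ℝ, σ ∈ F.cones → 1 ≤ C ∧ ∀ y : Fin n → ℝ, (∀ k, y k ≤ 0) →
        ∀ t ∈ Icc 0 t', ∀ b : Fin n → ℝ, ∀ i, Fv φ (F.vec i) (t, (F.pt σ y, b)) ≤
        C * Real.exp (2 * ∑ k, if σ k = i then y k else 0) := by
      intro σ
      by_cases hσ : σ ∈ F.cones
      · obtain ⟨d⟩ := exists_chartG h hσ
        obtain ⟨C, hC⟩ := d.bound ht'.2
        exact ⟨C, fun _ => hC⟩
      · exact ⟨0, fun h => absurd h hσ⟩
    choose C hC using hex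
    set S : Finset (Fin n → ι) := hfin.toFinset with hS
    have hmem : ∀ σ ∈ S, σ ∈ F.cones := fun σ hσ => hfin.mem_toFinset.1 hσ
    have hle : ∀ σ ∈ F.cones, C σ ≤ ∑ σ ∈ S, C σ := fun σ hσ =>
      Finset.single_le_sum (f := C) (s := S)
        (fun j hj => zero_le_one.trans (hC j (hmem j hj)).1) (hfin.mem_toFinset.2 hσ)
    refine ⟨∑ σ ∈ S, C σ, (hC σ₀ hσ₀).1.trans (hle σ₀ hσ₀), fun a => ?_⟩
    obtain ⟨σ, hσ, y, hy, rfl⟩ := F.exists_neg_cone a
    refine ⟨fun i => -∑ k, if σ k = i then y k else 0, fun i => ?_, ?_, ?_⟩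
    · rw [neg_nonneg]
      apply Finset.sum_nonpos
      intro k _
      split_ifs
      · exact hy k
      · exact le_rfl
    · simp only [neg_smul, Finset.sum_neg_distrib, neg_neg, Finset.sum_smul]
      rw [Finset.sum_comm]
      unfold SmoothCompleteFan.pt
      refine Finset.sum_congr rfl fun k _ => ?_
      rw [Finset.sum_eq_single (σ k)]
      · simp
      · intro i _ hi
        rw [if_neg (Ne.symm hi), zero_smul]
      · simp
    · intro t ht b i
      have h1 := (hC σ hσ).2 y hy t ht b i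
      refine h1.trans ?_
      have h2 : 2 * ∑ k, (if σ k = i then y k else 0) =
          -(2 * -∑ k, if σ k = i then y k else 0) := by ring
      rw [h2]
      exact mul_le_mul_of_nonneg_right (hle σ hσ) (Real.exp_pos _).le

end Pool.Agent.ToricKRF.G
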