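import Pool.Agent.Work.MP_a2bf38_gt.G.Defs

/-!
# The Levi form
-/

open scoped ContDiff ENNReal ComplexOrder
open Set

namespace Pool.Agent.ToricKRF.G

/-- multiplication by `i` -/
def J {n : ℕ} (u : Cn n) : Cn n := (-u.2, u.1)

/-- The Levi form `∑ f_{k lbar} u_k ubar_l = (1/4) (D_u D_u + D_{iu} D_{iu}) f`. -/
noncomputable def lev {n : ℕ} (f : ℝ × Cn n → ℝ) (u : Cn n) : ℝ × Cn n → ℝ :=
  fun p => (D (0, u) (D (0, u) f) p + D (0, J u) (D (0, J u) f) p) / 4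

/-- `F_v = |ξ_v|^2` for the constant holomorphic vector field `ξ_v`, `v` real. -/
noncomputable def Fv {n : ℕ} (φ : ℝ × Cn n → ℝ) (v : Fin n → ℝ) : ℝ × Cn n → ℝ := lev φ (v, 0)

end Pool.Agent.ToricKRF.G
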