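import Pool.Agent.Work.MP_a2bf38_gt.G.Lev
import Pool.Agent.Work.MP_a2bf38_gt.Chart1

/-!
# The charts of a Kähler family on a toric manifold
-/

open scoped ContDiff ENNReal ComplexOrder
open Set Filter Topology

namespace Pool.Agent.ToricKRF.G

variable {n : ℕ} {ι : Type}

/-! ### Slices -/

theorem D_slice' {V : Type*} [NormedAddCommGroup V] [NormedSpace ℝ V] {f : ℝ × V → ℝ} {t : ℝ}
    {x : V} (hf : DifferentiableAt ℝ f (t, x)) (w : V) :
    D (0, w) f (t, x) = D w (fun y => f (t, y)) x := by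
  simp only [D]
  have h1 : HasFDerivAt (fun y : V => ((t, y) : ℝ × V))
      (ContinuousLinearMap.inr ℝ ℝ V) x := by
    exact (hasFDerivAt_const t x).prodMk (hasFDerivAt_id (𝕜 := ℝ) x)
  have h2 := (hf.hasFDerivAt.comp x h1).fderiv
  have h4 : (fun y => f (t, y)) = f ∘ fun y => (t, y) := rfl
  rw [h4, h2]
  simp

/-- The Levi form of a function on `ℂ^n`. -/
noncomputable def lev0 (f : Cn n → ℝ) (u : Cn n) (z : Cn n) : ℝ :=
  (D u (D u f) z + D (J u) (D (J u) f) z) / 4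

theorem lev_eq_lev0 {f : ℝ × Cn n → ℝ} {U : Set (ℝ × Cn n)} (hU : IsOpen U)
    (hf : ContDiffOn ℝ ∞ f U) {t : ℝ} (ht : ∀ w, (t, w) ∈ U) (u w : Cn n) :
    lev f u (t, w) = lev0 (fun y => f (t, y)) u w := by
  have h1 : ∀ v : Cn n, ∀ w : Cn n, D (0, v) f (t, w) = D v (fun y => f (t, y)) w := fun v w =>
    D_slice' (diffAt_of_contDiffOn hU hf (ht w)) v
  have h2 : ∀ v : Cn n, D (0, v) (D (0, v) f) (t, w) = D v (D v (fun y => f (t, y))) w := by
    intro v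
    rw [D_slice' (diffAt_of_contDiffOn hU (contDiffOn_D hU hf _) (ht w))]
    congr 1
    funext y
    exact h1 v y
  simp only [lev, lev0, h2]

theorem contDiff_slice {f : ℝ × Cn n → ℝ} {U : Set (ℝ × Cn n)} (hU : IsOpen U)
    (hf : ContDiffOn ℝ ∞ f U) {t : ℝ} (ht : ∀ w, (t, w) ∈ U) : ContDiff ℝ ∞ fun y => f (t, y) := by
  rw [contDiff_iff_contDiffAt]
  intro w
  exact (hf.contDiffAt (hU.mem_nhds (ht w))).comp w (contDiffAt_const.prodMk contDiffAt_id)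

/-! ### Complex multiplication and the exponential -/

/-- componentwise complex multiplication -/
def cmul (z u : Cn n) : Cn n :=
  (fun k => z.1 k * u.1 k - z.2 k * u.2 k, fun k => z.1 k * u.2 k + z.2 k * u.1 k)

/-- complex multiplication as a bilinear map -/
noncomputable def cmulL (u : Cn n) : Cn n →L[ℝ] Cn n :=
  LinearMap.toContinuousLinearMap
    { toFun := fun z => cmul z u
      map_add' := by
        intro x y
        ext k <;> simp [cmul] <;> ring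
      map_smul' := by
        intro c x
        ext k <;> simp [cmul] <;> ring }

theorem cmulL_apply (u z : Cn n) : cmulL u z = cmul z u := rfl

/-- complex multiplication as a bilinear map -/
noncomputable def cmulR (z : Cn n) : Cn n →L[ℝ] Cn n :=
  LinearMap.toContinuousLinearMap
    { toFun := fun u => cmul z u
      map_add' := by
        intro x y
        ext k <;> simp [cmul] <;> ring
      map_smul' := by
        intro c x
        ext k <;> simp [cmul] <;> ring }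

theorem cmulR_apply (z u : Cn n) : cmulR z u = cmul z u := rfl

theorem hasFDerivAt_cexp (ζ : Cn n) : HasFDerivAt (cexp (n := n)) (cmulR (cexp ζ)) ζ := by
  have p1 : ∀ k, HasFDerivAt (fun ζ : Cn n => ζ.1 k)
      ((ContinuousLinearMap.proj (R := ℝ) (φ := fun _ : Fin n => ℝ) k).comp
        (ContinuousLinearMap.fst ℝ (Fin n → ℝ) (Fin n → ℝ))) ζ := fun k =>
    ((ContinuousLinearMap.proj (R := ℝ) (φ := fun _ : Fin n => ℝ) k).comp
        (ContinuousLinearMap.fst ℝ (Fin n → ℝ) (Fin n → ℝ))).hasFDerivAt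
  have p2 : ∀ k, HasFDerivAt (fun ζ : Cn n => ζ.2 k)
      ((ContinuousLinearMap.proj (R := ℝ) (φ := fun _ : Fin n => ℝ) k).comp
        (ContinuousLinearMap.snd ℝ (Fin n → ℝ) (Fin n → ℝ))) ζ := fun k =>
    ((ContinuousLinearMap.proj (R := ℝ) (φ := fun _ : Fin n => ℝ) k).comp
        (ContinuousLinearMap.snd ℝ (Fin n → ℝ) (Fin n → ℝ))).hasFDerivAt
  have e1 : ∀ k, HasFDerivAt (fun ζ : Cn n => Real.exp (ζ.1 k) * Real.cos (ζ.2 k)) _ ζ := fun k =>
    (p1 k).exp.mul (p2 k).cos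
  have e2 : ∀ k, HasFDerivAt (fun ζ : Cn n => Real.exp (ζ.1 k) * Real.sin (ζ.2 k)) _ ζ := fun k =>
    (p1 k).exp.mul (p2 k).sin
  have h := (hasFDerivAt_pi.2 e1).prodMk (hasFDerivAt_pi.2 e2)
  refine HasFDerivAt.congr_fderiv (f := cexp (n := n)) h ?_
  ext u k <;> simp [cmulR_apply, cmul, cexp] <;> ring

theorem differentiable_cexp : Differentiable ℝ (cexp (n := n)) := fun ζ =>
  (hasFDerivAt_cexp ζ).differentiableAt

theorem fderiv_cexp (ζ u : Cn n) : fderiv ℝ (cexp (n := n)) ζ u = cmul (cexp ζ) u := by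
  rw [(hasFDerivAt_cexp ζ).fderiv]
  rfl

theorem D_comp_cexp {f : Cn n → ℝ} (hf : ContDiff ℝ ∞ f) (u ζ : Cn n) :
    D u (fun ζ => f (cexp ζ)) ζ = fderiv ℝ f (cexp ζ) (cmul (cexp ζ) u) := by
  have h1 := (hf.differentiable (by simp) (cexp ζ)).hasFDerivAt.comp ζ (hasFDerivAt_cexp ζ)
  have h2 : (fun ζ => f (cexp ζ)) = f ∘ cexp := rfl
  simp only [D]
  rw [h2, h1.fderiv]
  rfl

theorem DD_comp_cexp {f : Cn n → ℝ} (hf : ContDiff ℝ ∞ f) (u ζ : Cn n) :
    D u (D u (fun ζ => f (cexp ζ))) ζ =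
      fderiv ℝ (fderiv ℝ f) (cexp ζ) (cmul (cexp ζ) u) (cmul (cexp ζ) u) +
        fderiv ℝ f (cexp ζ) (cmul (cmul (cexp ζ) u) u) := by
  have hf' : ContDiff ℝ ∞ (fderiv ℝ f) := (contDiff_infty_iff_fderiv.1 hf).2
  have h0 : D u (fun ζ => f (cexp ζ)) = fun ζ => fderiv ℝ f (cexp ζ) (cmulL u (cexp ζ)) := by
    funext ζ
    rw [D_comp_cexp hf, cmulL_apply]
  have h1 : HasFDerivAt (fun ζ => fderiv ℝ f (cexp ζ)) _ ζ :=
    (hf'.differentiable (by simp) (cexp ζ)).hasFDerivAt.comp ζ (hasFDerivAt_cexp ζ)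
  have h2 : HasFDerivAt (fun ζ : Cn n => cmulL u (cexp ζ)) _ ζ :=
    (cmulL u).hasFDerivAt.comp ζ (hasFDerivAt_cexp ζ)
  have h3 := h1.clm_apply h2
  rw [h0]
  simp only [D]
  rw [h3.fderiv]
  simp only [cmulL_apply, add_apply, ContinuousLinearMap.comp_apply,
    ContinuousLinearMap.flip_apply, cmulR_apply]
  rw [add_comm]

theorem DD_eq_fderiv {V : Type*} [NormedAddCommGroup V] [NormedSpace ℝ V] {f : V → ℝ}
    (hf : ContDiff ℝ ∞ f) (u z : V) : D u (D u f) z = fderiv ℝ (fderiv ℝ f) z u u := by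
  have hf' : ContDiff ℝ ∞ (fderiv ℝ f) := (contDiff_infty_iff_fderiv.1 hf).2
  change fderiv ℝ (fun y => (fderiv ℝ f y) u) z u = _
  rw [fderiv_clm_apply (hf'.differentiable (by simp) z) (differentiableAt_const u)]
  simp

/-- The Levi form in exponential coordinates. -/
theorem lev0_cexp {f : Cn n → ℝ} (hf : ContDiff ℝ ∞ f) (u ζ : Cn n) :
    lev0 (fun ζ => f (cexp ζ)) u ζ = lev0 f (cmul (cexp ζ) u) (cexp ζ) := by
  simp only [lev0]
  rw [DD_comp_cexp hf, DD_comp_cexp hf, DD_eq_fderiv hf, DD_eq_fderiv hf]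
  have h1 : cmul (cexp ζ) (J u) = J (cmul (cexp ζ) u) := by
    ext k <;> simp [cmul, J] <;> ring
  have h2 : cmul (cmul (cexp ζ) (J u)) (J u) = -cmul (cmul (cexp ζ) u) u := by
    ext k <;> simp [cmul, J] <;> ring
  rw [h2, h1, map_neg]
  ring

/-- `lev0` of a sum with a real linear function. -/
theorem lev0_add_linear {f : Cn n → ℝ} (hf : ContDiff ℝ ∞ f) (L : Cn n →L[ℝ] ℝ) (u ζ : Cn n) :
    lev0 (fun ζ => L ζ + f ζ) u ζ = lev0 f u ζ := by
  have h1 : ∀ v : Cn n, D v (fun ζ => L ζ + f ζ) = fun ζ => L v + D v f ζ := by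
    intro v
    funext ζ
    rw [D_add L.differentiableAt (hf.differentiable (by simp) ζ)]
    simp [D]
  have h2 : ∀ v : Cn n, D v (D v (fun ζ => L ζ + f ζ)) ζ = D v (D v f) ζ := by
    intro v
    rw [h1]
    have hf' : ContDiff ℝ ∞ (fderiv ℝ f) := (contDiff_infty_iff_fderiv.1 hf).2
    have h3 : DifferentiableAt ℝ (D v f) ζ :=
      (hf'.differentiable (by simp) ζ).clm_apply (differentiableAt_const v)
    rw [D_add (differentiableAt_const _) h3, D_const, zero_add]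
  simp only [lev0, h2]

/-- `lev0` and a complex linear map. -/
theorem lev0_comp_linear {f : Cn n → ℝ} (hf : ContDiff ℝ ∞ f) (A : Cn n →L[ℝ] Cn n)
    (hA : ∀ u, A (J u) = J (A u)) (u ζ : Cn n) :
    lev0 (fun ζ => f (A ζ)) u ζ = lev0 f (A u) (A ζ) := by
  have h1 : ∀ v : Cn n, D v (fun ζ => f (A ζ)) = fun ζ => D (A v) f (A ζ) := by
    intro v
    funext ζ
    exact D_comp_linear A (hf.differentiable (by simp) _) v
  have hf' : ContDiff ℝ ∞ (fderiv ℝ f) := (contDiff_infty_iff_fderiv.1 hf).2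
  have h2 : ∀ v : Cn n, D v (D v (fun ζ => f (A ζ))) ζ = D (A v) (D (A v) f) (A ζ) := by
    intro v
    rw [h1]
    have h3 : DifferentiableAt ℝ (D (A v) f) (A ζ) :=
      (hf'.differentiable (by simp) _).clm_apply (differentiableAt_const _)
    exact D_comp_linear A h3 v
  simp only [lev0, h2, hA]

/-! ### The data of a chart -/

theorem ptL_apply' (F : SmoothCompleteFan n ι) (σ : Fin n → ι) (y : Fin n → ℝ) :
    F.ptL σ y = F.pt σ y := F.ptL_apply σ y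

/-- `cpt F σ` as a linear map. -/
noncomputable def cptL (F : SmoothCompleteFan n ι) (σ : Fin n → ι) : Cn n →L[ℝ] Cn n :=
  (F.ptL σ).prodMap (F.ptL σ)

theorem cptL_apply (F : SmoothCompleteFan n ι) (σ : Fin n → ι) (ζ : Cn n) :
    cptL F σ ζ = cpt F σ ζ := by
  change (F.ptL σ ζ.1, F.ptL σ ζ.2) = _
  rw [F.ptL_apply, F.ptL_apply]
  rfl

theorem cptL_J (F : SmoothCompleteFan n ι) (σ : Fin n → ι) (u : Cn n) :
    cptL F σ (J u) = J (cptL F σ u) := by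
  simp [cptL, J]

/-- The data of a chart of a Kähler family. -/
structure ChartG (F : SmoothCompleteFan n ι) (T : ℝ) (φ : ℝ × Cn n → ℝ) (σ : Fin n → ι) where
  mem : σ ∈ F.cones
  U : Set (ℝ × Cn n)
  isOpen_U : IsOpen U
  sub_U : Ico 0 T ×ˢ univ ⊆ U
  smooth_φ : ContDiffOn ℝ ∞ φ U
  v : ℝ → Fin n → ℝ
  ψ : ℝ × Cn n → ℝ
  W : Set (ℝ × Cn n)
  isOpen_W : IsOpen W
  sub_W : Ico 0 T ×ˢ univ ⊆ W
  smooth_ψ : ContDiffOn ℝ ∞ ψ W
  eqn : ∀ t ∈ Ico 0 T, ∀ ζ : Cn n, φ (t, cpt F σ ζ) = ∑ k, v t k * ζ.1 k + ψ (t, cexp ζ)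
  pos : ∀ t ∈ Ico 0 T, ∀ z : Cn n, (cHess ψ (t, z)).PosDef

theorem exists_chartG {F : SmoothCompleteFan n ι} {T : ℝ} {φ : ℝ × Cn n → ℝ}
    (h : IsKahlerFamily F T φ) {σ : Fin n → ι} (hσ : σ ∈ F.cones) :
    Nonempty (ChartG F T φ σ) := by
  obtain ⟨U, hU, hsub, hφ⟩ := h.smooth
  obtain ⟨v, ψ, ⟨W, hW, hsubW, hψ⟩, h1, h2⟩ := h.extends_chart σ hσ
  exact ⟨⟨hσ, U, hU, hsub, hφ, v, ψ, W, hW, hsubW, hψ, h1, h2⟩⟩

namespace ChartG

variable {F : SmoothCompleteFan n ι} {T : ℝ} {φ : ℝ × Cn n → ℝ} {σ : Fin n → ι}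
  (d : ChartG F T φ σ)

theorem mem_W {t : ℝ} (ht : t ∈ Ico 0 T) (z : Cn n) : (t, z) ∈ d.W := d.sub_W ⟨ht, mem_univ _⟩

theorem mem_U {t : ℝ} (ht : t ∈ Ico 0 T) (z : Cn n) : (t, z) ∈ d.U := d.sub_U ⟨ht, mem_univ _⟩

/-- The Levi form of `φ` in a chart. -/
theorem lev_eq {t : ℝ} (ht : t ∈ Ico 0 T) (ζ u : Cn n) :
    lev φ (cpt F σ u) (t, cpt F σ ζ) = lev d.ψ (cmul (cexp ζ) u) (t, cexp ζ) := by
  have hφ : ContDiff ℝ ∞ fun y => φ (t, y) := contDiff_slice d.isOpen_U d.smooth_φ (d.mem_U ht)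
  have hψ : ContDiff ℝ ∞ fun y => d.ψ (t, y) := contDiff_slice d.isOpen_W d.smooth_ψ (d.mem_W ht)
  rw [lev_eq_lev0 d.isOpen_U d.smooth_φ (d.mem_U ht), lev_eq_lev0 d.isOpen_W d.smooth_ψ (d.mem_W ht),
    ← lev0_cexp hψ, ← cptL_apply, ← cptL_apply, ← lev0_comp_linear hφ (cptL F σ) (cptL_J F σ)]
  set L : Cn n →L[ℝ] ℝ := ∑ k, d.v t k •
    ((ContinuousLinearMap.proj (R := ℝ) (φ := fun _ : Fin n => ℝ) k).comp
      (ContinuousLinearMap.fst ℝ (Fin n → ℝ) (Fin n → ℝ))) with hL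
  have h1 : (fun ζ => φ (t, cptL F σ ζ)) = fun ζ => L ζ + d.ψ (t, cexp ζ) := by
    funext ζ
    rw [cptL_apply, d.eqn t ht]
    simp [hL]
  rw [h1]
  have h2 : ContDiff ℝ ∞ fun ζ : Cn n => d.ψ (t, cexp ζ) := by
    have h3 : ContDiff ℝ ∞ (cexp (n := n)) := by
      unfold cexp
      fun_prop
    exact hψ.comp h3
  exact lev0_add_linear h2 L u ζ

theorem exists_cpt (F : SmoothCompleteFan n ι) {σ : Fin n → ι} (hσ : σ ∈ F.cones) (w : Cn n) :
    ∃ ζ, cpt F σ ζ = w := by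
  obtain ⟨a, ha⟩ := F.exists_pt hσ w.1
  obtain ⟨b, hb⟩ := F.exists_pt hσ w.2
  exact ⟨(a, b), by simp [cpt, ha, hb]⟩

theorem exists_int (F : SmoothCompleteFan n ι) {σ : Fin n → ι} (hσ : σ ∈ F.cones)
    (m : Fin n → ℤ) : ∃ m' : Fin n → ℤ, F.pt σ (fun k => (m' k : ℝ)) = fun k => (m k : ℝ) := by
  have hu := F.unimodular σ hσ
  refine ⟨Matrix.vecMul m (Matrix.of fun k j => F.ray (σ k) j)⁻¹, ?_⟩
  set R : Matrix (Fin n) (Fin n) ℤ := Matrix.of fun k j => F.ray (σ k) j with hR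
  have h1 : Matrix.vecMul (Matrix.vecMul m R⁻¹) R = m := by
    rw [Matrix.vecMul_vecMul, Matrix.nonsing_inv_mul _ hu, Matrix.vecMul_one]
  ext j
  rw [F.pt_apply]
  have h2 := congrFun h1 j
  simp only [Matrix.vecMul, dotProduct] at h2 ⊢
  rw [← h2]
  push_cast
  simp [hR, SmoothCompleteFan.vec]

include d in
theorem periodic {t : ℝ} (ht : t ∈ Ico 0 T) (a b : Fin n → ℝ) (m : Fin n → ℤ) :
    φ (t, (a, fun j => b j + 2 * Real.pi * m j)) = φ (t, (a, b)) := by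
  obtain ⟨ζ, hζ⟩ := exists_cpt F d.mem (a, b)
  obtain ⟨m', hm'⟩ := exists_int F d.mem m
  have h1 : cpt F σ (ζ.1, fun j => ζ.2 j + 2 * Real.pi * m' j) =
      (a, fun j => b j + 2 * Real.pi * m j) := by
    have hfst : F.pt σ ζ.1 = a := congrArg Prod.fst hζ
    have hsnd : F.pt σ ζ.2 = b := congrArg Prod.snd hζ
    have h2 : F.pt σ (fun j => ζ.2 j + 2 * Real.pi * m' j) =
        F.pt σ ζ.2 + (2 * Real.pi) • F.pt σ (fun k => (m' k : ℝ)) := by
      rw [← F.ptL_apply, ← F.ptL_apply, ← F.ptL_apply, ← map_smul, ← map_add]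
      congr 1
    simp only [cpt, hfst, h2, hsnd, hm']
    ext j
    · rfl
    · simp
  have h3 : cexp (ζ.1, fun j => ζ.2 j + 2 * Real.pi * m' j) = cexp ζ := by
    have hc : ∀ j, Real.cos (ζ.2 j + 2 * Real.pi * m' j) = Real.cos (ζ.2 j) := fun j => by
      rw [mul_comm (2 * Real.pi)]
      exact Real.cos_add_int_mul_two_pi _ _
    have hs : ∀ j, Real.sin (ζ.2 j + 2 * Real.pi * m' j) = Real.sin (ζ.2 j) := fun j => by
      rw [mul_comm (2 * Real.pi)]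
      exact Real.sin_add_int_mul_two_pi _ _
    simp only [cexp, hc, hs]
  rw [← h1, ← hζ, d.eqn t ht, d.eqn t ht, h3]

end ChartG

end Pool.Agent.ToricKRF.G
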