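import Pool.Agent.Work.MP_a2bf38_gt.Base

/-!
# Kähler-Ricci flows on compact toric manifolds: definitions

No symmetry of the metrics is assumed.

A compact toric manifold `M` of complex dimension `n` is given by a smooth complete fan in `ℝ^n`
(`SmoothCompleteFan`).  Its open orbit is `(ℂ^*)^n`, with the logarithmic coordinates
`w = a + i b ∈ ℂ^n`, `b` modulo `2π ℤ^n`.  The chart `ℂ^n` of the maximal cone `σ`, spanned by the
rays `ν_{σ k}`, has the coordinates `z_k = exp ζ_k` for `w = ∑ k, ζ_k ν_{σ k}`.  We write `ℂ^n` as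
`ℝ^n × ℝ^n`, the pair `(a, b)` being the point `a + i b`.

A smooth family of Kähler metrics `ω(t)`, `t ∈ [0,T)`, on `M` has a potential `φ(t, w)` on the open
orbit, `ω = i ∂ ∂bar φ`, `g_{k lbar} = ∂_k ∂_lbar φ`, such that for each maximal cone `σ`
`φ(t, ∑ ζ_k ν_{σ k}) = ∑ v_k(t) Re ζ_k + ψ(t, exp ζ)` with `ψ(t, z)` smooth on `[0,T) × ℂ^n` and
`∂_k ∂_lbar ψ` (the metric in the chart of `σ`) positive definite.
-/

open scoped ContDiff ENNReal ComplexOrder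

namespace Pool.Agent.ToricKRF.G

/-- `ℂ^n` as `ℝ^n × ℝ^n`; the pair `(a, b)` is the point `a + i b`. -/
abbrev Cn (n : ℕ) := (Fin n → ℝ) × (Fin n → ℝ)

/-- The time derivative of a function of `(t, a + i b)`. -/
noncomputable def dt {n : ℕ} (f : ℝ × Cn n → ℝ) : ℝ × Cn n → ℝ := D (1, 0) f

/-- The derivative in the direction of `a_k` of a function of `(t, a + i b)`. -/
noncomputable def da {n : ℕ} (k : Fin n) (f : ℝ × Cn n → ℝ) : ℝ × Cn n → ℝ :=
  D (0, (Pi.single k 1, 0)) f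

/-- The derivative in the direction of `b_k` of a function of `(t, a + i b)`. -/
noncomputable def db {n : ℕ} (k : Fin n) (f : ℝ × Cn n → ℝ) : ℝ × Cn n → ℝ :=
  D (0, (0, Pi.single k 1)) f

/-- The complex Hessian `∂_k ∂_lbar f = (1/4) (∂_{a_k} - i ∂_{b_k}) (∂_{a_l} + i ∂_{b_l}) f`. -/
noncomputable def cHess {n : ℕ} (f : ℝ × Cn n → ℝ) (p : ℝ × Cn n) : Matrix (Fin n) (Fin n) ℂ :=
  Matrix.of fun k l => ⟨(da k (da l f) p + db k (db l f) p) / 4,
    (da k (db l f) p - db k (da l f) p) / 4⟩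

/-- `f` is smooth on `[0,T) × ℂ^n`, up to the initial time: it is smooth on an open set containing
`[0,T) × ℂ^n`. -/
def SmoothOn {n : ℕ} (T : ℝ) (f : ℝ × Cn n → ℝ) : Prop :=
  ∃ U : Set (ℝ × Cn n), IsOpen U ∧ Set.Ico 0 T ×ˢ Set.univ ⊆ U ∧ ContDiffOn ℝ ∞ f U

/-- The point `w = ∑ k, ζ_k ν_{σ k}` of `ℂ^n` (logarithmic coordinates of the open orbit). -/
def cpt {n : ℕ} {ι : Type} (F : SmoothCompleteFan n ι) (σ : Fin n → ι)
    (ζ : Cn n) : Cn n :=
  (F.pt σ ζ.1, F.pt σ ζ.2)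

/-- `(exp ζ_k)_k`. -/
noncomputable def cexp {n : ℕ} (ζ : Cn n) : Cn n :=
  (fun k => Real.exp (ζ.1 k) * Real.cos (ζ.2 k), fun k => Real.exp (ζ.1 k) * Real.sin (ζ.2 k))

/-- `φ(t, w)`, `t ∈ [0,T)`, is the potential on the open orbit of a smooth family of Kähler metrics
on the compact toric manifold of the fan `F`. -/
structure IsKahlerFamily {n : ℕ} {ι : Type} (F : SmoothCompleteFan n ι) (T : ℝ)
    (φ : ℝ × Cn n → ℝ) : Prop where
  smooth : SmoothOn T φ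
  extends_chart : ∀ σ ∈ F.cones, ∃ (v : ℝ → Fin n → ℝ) (ψ : ℝ × Cn n → ℝ),
    SmoothOn T ψ ∧
    (∀ t ∈ Set.Ico 0 T, ∀ ζ : Cn n,
      φ (t, cpt F σ ζ) = ∑ k, v t k * ζ.1 k + ψ (t, cexp ζ)) ∧
    ∀ t ∈ Set.Ico 0 T, ∀ z : Cn n, (cHess ψ (t, z)).PosDef

/-- `φ(t, w)`, `t ∈ [0,T)`, is the potential on the open orbit of a solution of the Kähler-Ricci
flow `∂ω/∂t = -Ric(ω) = i ∂ ∂bar log det g` on the compact toric manifold of `F`. -/
structure IsKRF {n : ℕ} {ι : Type} (F : SmoothCompleteFan n ι) (T : ℝ)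
    (φ : ℝ × Cn n → ℝ) : Prop extends IsKahlerFamily F T φ where
  flow_re : ∀ t ∈ Set.Ioo 0 T, ∀ (w : Cn n) (k l : Fin n),
    dt (fun p => (cHess φ p k l).re) (t, w) =
      (cHess (fun p => Real.log (cHess φ p).det.re) (t, w) k l).re
  flow_im : ∀ t ∈ Set.Ioo 0 T, ∀ (w : Cn n) (k l : Fin n),
    dt (fun p => (cHess φ p k l).im) (t, w) =
      (cHess (fun p => Real.log (cHess φ p).det.re) (t, w) k l).im

/-- The squared length, for the Riemannian metric `2 Re ∑ g_{k lbar} dw_k dwbar_l` at time `t`, of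
the tangent vector `u` at the point `w` of the open orbit. -/
noncomputable def normSq {n : ℕ} (φ : ℝ × Cn n → ℝ) (t : ℝ) (w u : Cn n) : ℝ :=
  2 * (∑ k, ∑ l, cHess φ (t, w) k l * (⟨u.1 k, u.2 k⟩ : ℂ) * (starRingEnd ℂ) ⟨u.1 l, u.2 l⟩).re

/-- The length at time `t` of the curve `γ : [0,1] → ℂ^n` (logarithmic coordinates). -/
noncomputable def length {n : ℕ} (φ : ℝ × Cn n → ℝ) (t : ℝ) (γ : ℝ → Cn n) : ℝ :=
  ∫ s in (0 : ℝ)..1, √(normSq φ t (γ s) (deriv γ s))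

/-- `γ` is a `C^1` curve on `[0,1]` in the open orbit from `p` to `q`, points given by their
logarithmic coordinates, whose imaginary parts are taken modulo `2π ℤ^n`. -/
def Joins {n : ℕ} (γ : ℝ → Cn n) (p q : Cn n) : Prop :=
  ContDiffOn ℝ 1 γ (Set.Icc 0 1) ∧ γ 0 = p ∧
    ∃ m : Fin n → ℤ, γ 1 = (q.1, fun j => q.2 j + 2 * Real.pi * m j)

/-- The distance at time `t` of two points of the open orbit: the infimum of the lengths of the
piecewise `C^1` curves `γ_0, …, γ_(m-1)` in the open orbit, from `c_0 = p` over `c_1, …, c_(m-1)` to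
`c_m = q`. -/
noncomputable def orbitDist {n : ℕ} (φ : ℝ × Cn n → ℝ) (t : ℝ) (p q : Cn n) : ℝ≥0∞ :=
  ⨅ (m : ℕ) (c : ℕ → Cn n) (γ : ℕ → ℝ → Cn n)
    (_ : c 0 = p ∧ c m = q ∧ ∀ i < m, Joins (γ i) (c i) (c (i + 1))),
    ∑ i ∈ Finset.range m, ENNReal.ofReal (length φ t (γ i))

/-- The diameter at time `t`. -/
noncomputable def diam {n : ℕ} (φ : ℝ × Cn n → ℝ) (t : ℝ) : ℝ≥0∞ :=
  ⨆ (p : Cn n) (q : Cn n), orbitDist φ t p q

end Pool.Agent.ToricKRF.G
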