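import Pool.Agent.Work.MP_a2bf38_gt.G.Lev
import Pool.Agent.Work.MP_a2bf38_gt.MaxP

/-!
# The maximum principle for functions periodic in the imaginary direction
-/

open scoped ContDiff ENNReal ComplexOrder
open Set Filter Topology

namespace Pool.Agent.ToricKRF.G

theorem exists_shift (b : ℝ) : ∃ m : ℤ, b + 2 * Real.pi * m ∈ Icc 0 (2 * Real.pi) := by
  have hpi : 0 < 2 * Real.pi := by positivity
  refine ⟨-⌊b / (2 * Real.pi)⌋, ?_, ?_⟩
  · have h := Int.floor_le (b / (2 * Real.pi))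
    rw [le_div_iff₀ hpi] at h
    push_cast
    linarith
  · have h := (Int.lt_floor_add_one (b / (2 * Real.pi))).le
    rw [div_le_iff₀ hpi] at h
    push_cast
    linarith

theorem max_principle_periodic {n : ℕ} {t' : ℝ} (ht' : 0 < t') {u : ℝ × Cn n → ℝ}
    {U : Set (ℝ × Cn n)} (hU : IsOpen U) (hsub : Icc 0 t' ×ˢ univ ⊆ U) (hu : ContDiffOn ℝ ∞ u U)
    (hper : ∀ (t : ℝ) (a b : Fin n → ℝ) (m : Fin n → ℤ), t ∈ Icc 0 t' →
      u (t, (a, fun j => b j + 2 * Real.pi * m j)) = u (t, (a, b)))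
    (hproper : ∀ c : ℝ, ∃ R : ℝ, ∀ t ∈ Icc 0 t', ∀ w : Cn n, c ≤ u (t, w) → ‖w.1‖ ≤ R)
    (K : ℝ) (h0 : ∀ w, u (0, w) ≤ K)
    (hint : ∀ t ∈ Ioc 0 t', ∀ w : Cn n, (∀ v : Cn n, D (0, v) (D (0, v) u) (t, w) ≤ 0) →
      D (1, 0) u (t, w) ≤ 0) :
    ∀ t ∈ Icc 0 t', ∀ w, u (t, w) ≤ K := by
  suffices H : ∀ ε > 0, ∀ t ∈ Icc 0 t', ∀ w, u (t, w) - ε * t ≤ K by
    intro t ht w
    refine le_of_forall_pos_le_add fun δ hδ => ?_
    have h1 := H (δ / t') (by positivity) t ht w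
    have h2 : δ / t' * t ≤ δ := by
      calc δ / t' * t ≤ δ / t' * t' := mul_le_mul_of_nonneg_left ht.2 (by positivity)
        _ = δ := div_mul_cancel₀ _ ht'.ne'
    linarith
  intro ε hε
  by_contra hcon
  push Not at hcon
  obtain ⟨t₁, ht₁, w₁, hw₁⟩ := hcon
  set v : ℝ × Cn n → ℝ := fun q => u q - ε * q.1 with hv
  have hvper : ∀ (t : ℝ) (a b : Fin n → ℝ) (m : Fin n → ℤ), t ∈ Icc 0 t' →
      v (t, (a, fun j => b j + 2 * Real.pi * m j)) = v (t, (a, b)) := fun t a b m ht => by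
    simp only [hv, hper t a b m ht]
  have hvc : ContinuousOn v (Icc (0 : ℝ) t' ×ˢ (univ : Set (Cn n))) :=
    (hu.continuousOn.mono hsub).sub (by fun_prop)
  set c₁ := v (t₁, w₁) with hc₁
  -- a compact set of representatives
  obtain ⟨R, hR⟩ := hproper c₁
  set Q : Set (ℝ × Cn n) := Icc (0 : ℝ) t' ×ˢ
    (Metric.closedBall (0 : Fin n → ℝ) R ×ˢ Set.pi univ fun _ => Icc (0 : ℝ) (2 * Real.pi)) with hQ
  have hQc : IsCompact Q := isCompact_Icc.prod ((isCompact_closedBall _ _).prod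
    (isCompact_univ_pi fun _ => isCompact_Icc))
  have hQs : Q ⊆ Icc (0 : ℝ) t' ×ˢ (univ : Set (Cn n)) := fun q hq => ⟨hq.1, mem_univ _⟩
  have hrep : ∀ t ∈ Icc 0 t', ∀ w : Cn n, c₁ ≤ v (t, w) → ∃ w' : Cn n, (t, w') ∈ Q ∧
      v (t, w') = v (t, w) := by
    intro t ht w hw
    choose m hm using fun j => exists_shift (w.2 j)
    refine ⟨(w.1, fun j => w.2 j + 2 * Real.pi * m j), ⟨ht, ?_, fun j _ => hm j⟩, hvper t w.1 w.2 m ht⟩
    rw [mem_closedBall_zero_iff]
    refine hR t ht w ?_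
    have h1 : v (t, w) ≤ u (t, w) := by
      simp only [hv]
      have := mul_nonneg hε.le ht.1
      linarith
    exact hw.trans h1
  obtain ⟨w₁', hw1Q, hw1v⟩ := hrep t₁ ht₁ w₁ le_rfl
  obtain ⟨p, hpQ, hpmax⟩ := hQc.exists_isMaxOn ⟨_, hw1Q⟩ (hvc.mono hQs)
  obtain ⟨t, w⟩ := p
  have htI : t ∈ Icc 0 t' := hpQ.1
  have hp1 : c₁ ≤ v (t, w) := by
    rw [hc₁, ← hw1v]
    exact hpmax hw1Q
  have hmax : ∀ s ∈ Icc 0 t', ∀ z, v (s, z) ≤ v (t, w) := by
    intro s hs z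
    by_cases h : c₁ ≤ v (s, z)
    · obtain ⟨z', hz', hvz⟩ := hrep s hs z h
      rw [← hvz]
      exact hpmax hz'
    · push Not at h
      exact h.le.trans hp1
  have hbig : K < v (t, w) := lt_of_lt_of_le hw₁ hp1
  have htpos : 0 < t := by
    rcases htI.1.eq_or_lt with h | h
    · exfalso
      rw [← h] at hbig
      have := h0 w
      simp only [hv, mul_zero, sub_zero] at hbig
      linarith
    · exact h
  have hpU : (t, w) ∈ U := hsub ⟨htI, mem_univ _⟩
  have hcd : ContDiffAt ℝ 2 u (t, w) := (hu.contDiffAt (hU.mem_nhds hpU)).of_le (by norm_cast)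
  have h2 : D (1, 0) u (t, w) ≤ 0 := by
    refine hint t ⟨htpos, htI.2⟩ w fun z => ?_
    obtain ⟨h1, -, h3⟩ := line_facts ((0 : ℝ), z) hcd
    change fderiv ℝ (fun q => fderiv ℝ u q (0, z)) (t, w) (0, z) ≤ 0
    rw [← h3]
    apply deriv_deriv_nonpos_of_isLocalMax h1
    refine Eventually.of_forall fun s => ?_
    have := hmax t htI (w + s • z)
    simp only [hv] at this
    simpa using this
  have h3 : ε ≤ D (1, 0) u (t, w) := by
    obtain ⟨g1, g2, -⟩ := line_facts ((1 : ℝ), (0 : Cn n)) hcd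
    have hd : HasDerivAt (fun s : ℝ => u ((t, w) + s • ((1 : ℝ), (0 : Cn n))) - ε * (t + s))
        (D (1, 0) u (t, w) - ε) 0 := by
      have e1 : HasDerivAt (fun s : ℝ => u ((t, w) + s • ((1 : ℝ), (0 : Cn n))))
          (D (1, 0) u (t, w)) 0 := by
        have := (g1.differentiableAt (by norm_num)).hasDerivAt
        rwa [g2] at this
      have e2 : HasDerivAt (fun s : ℝ => ε * (t + s)) ε 0 := by
        simpa using ((hasDerivAt_id (0 : ℝ)).const_add t).const_mul ε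
      exact e1.sub e2
    have := deriv_nonneg_of_left_max (g := fun s : ℝ =>
      u ((t, w) + s • ((1 : ℝ), (0 : Cn n))) - ε * (t + s)) (a := 0) (c := -t) (by linarith)
      hd.differentiableAt (by
        intro s hs
        have hts : t + s ∈ Icc 0 t' := ⟨by linarith [hs.1], by linarith [hs.2, htI.2]⟩
        have := hmax (t + s) hts w
        simp only [hv] at this
        simpa using this)
    rw [hd.deriv] at this
    linarith
  linarith

end Pool.Agent.ToricKRF.G
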