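import Pool.Agent.Work.MP_a2bf38_gt.G.Flow
import Pool.Agent.Work.MP_a2bf38_gt.G.MaxP

/-!
# The uniform estimates
-/

open scoped ContDiff ENNReal ComplexOrder
open Set

namespace Pool.Agent.ToricKRF.G

variable {n : ℕ} {ι : Type} [Fintype ι]

/-! ### Sums of functions -/

/-- the linear function `2 ⟨e, a⟩` -/
noncomputable def linf (e : Fin n → ℝ) : (ℝ × Cn n) →L[ℝ] ℝ :=
  ∑ j, (2 * e j) • ((ContinuousLinearMap.proj j).comp
    ((ContinuousLinearMap.fst ℝ (Fin n → ℝ) (Fin n → ℝ)).comp (ContinuousLinearMap.snd ℝ ℝ (Cn n))))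

theorem linf_apply (e : Fin n → ℝ) (q : ℝ × Cn n) : linf e q = 2 * (e ⬝ᵥ q.2.1) := by
  unfold linf dotProduct
  rw [Finset.mul_sum, sum_apply]
  refine Finset.sum_congr rfl fun j _ => ?_
  simp
  ring

theorem D_clm (L : (ℝ × Cn n) →L[ℝ] ℝ) (w p : ℝ × Cn n) : D w (fun q => L q) p = L w := by
  unfold D
  rw [ContinuousLinearMap.fderiv]

theorem D_u {g : ι → ℝ × Cn n → ℝ} (L : (ℝ × Cn n) →L[ℝ] ℝ) (β : ι → ℝ) {p : ℝ × Cn n}
    (hg : ∀ i, DifferentiableAt ℝ (g i) p) (w : ℝ × Cn n) :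
    D w (fun q => L q + ∑ i, β i * g i q) p = L w + ∑ i, β i * D w (g i) p := by
  have h1 : ∀ i ∈ (Finset.univ : Finset ι), DifferentiableAt ℝ (fun q => β i * g i q) p :=
    fun i _ => (hg i).const_mul _
  have h2 : DifferentiableAt ℝ (fun q => ∑ i, β i * g i q) p :=
    DifferentiableAt.fun_sum h1
  rw [D_add L.differentiableAt h2, D_clm, D_sum _ h1]
  congr 1
  exact Finset.sum_congr rfl fun i _ => D_const_mul _ (hg i) _

theorem DD_u {U : Set (ℝ × Cn n)} (hU : IsOpen U) {g : ι → ℝ × Cn n → ℝ}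
    (hg : ∀ i, ContDiffOn ℝ ∞ (g i) U) (L : (ℝ × Cn n) →L[ℝ] ℝ) (β : ι → ℝ) {p : ℝ × Cn n}
    (hp : p ∈ U) (w w' : ℝ × Cn n) :
    D w' (D w (fun q => L q + ∑ i, β i * g i q)) p = ∑ i, β i * D w' (D w (g i)) p := by
  have h1 : EqOn (D w (fun q => L q + ∑ i, β i * g i q))
      (fun q => L w + ∑ i, β i * D w (g i) q) U := fun q hq =>
    D_u L β (fun i => diffAt_of_contDiffOn hU (hg i) hq) w
  rw [D_congr hU h1 w' hp]
  have h2 : ∀ i ∈ (Finset.univ : Finset ι), DifferentiableAt ℝ (fun q => β i * D w (g i) q) p :=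
    fun i _ => (diffAt_of_contDiffOn hU (contDiffOn_D hU (hg i) w) hp).const_mul _
  have h3 : DifferentiableAt ℝ (fun q => ∑ i, β i * D w (g i) q) p := DifferentiableAt.fun_sum h2
  rw [D_add (differentiableAt_const _) h3, D_const, zero_add, D_sum _ h2]
  exact Finset.sum_congr rfl fun i _ =>
    D_const_mul _ (diffAt_of_contDiffOn hU (contDiffOn_D hU (hg i) w) hp) _

theorem lev_u {U : Set (ℝ × Cn n)} (hU : IsOpen U) {g : ι → ℝ × Cn n → ℝ}
    (hg : ∀ i, ContDiffOn ℝ ∞ (g i) U) (L : (ℝ × Cn n) →L[ℝ] ℝ) (β : ι → ℝ) {p : ℝ × Cn n}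
    (hp : p ∈ U) (w : Cn n) :
    lev (fun q => L q + ∑ i, β i * g i q) w p = ∑ i, β i * lev (g i) w p := by
  unfold lev
  rw [DD_u hU hg L β hp, DD_u hU hg L β hp, ← Finset.sum_add_distrib, Finset.sum_div]
  exact Finset.sum_congr rfl fun i _ => by ring

theorem contDiffOn_lev {U : Set (ℝ × Cn n)} (hU : IsOpen U) {f : ℝ × Cn n → ℝ}
    (hf : ContDiffOn ℝ ∞ f U) (u : Cn n) : ContDiffOn ℝ ∞ (lev f u) U := by
  unfold lev
  exact ((contDiffOn_D hU (contDiffOn_D hU hf _) _).add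
    (contDiffOn_D hU (contDiffOn_D hU hf _) _)).div_const _

/-! ### The key estimate -/

theorem norm_le_sum (ν : ι → Fin n → ℝ) {c : ι → ℝ} (hc : ∀ i, 0 ≤ c i) :
    ‖-∑ i, c i • ν i‖ ≤ (∑ i, ‖ν i‖) * ∑ i, c i := by
  rw [norm_neg]
  refine (norm_sum_le _ _).trans ?_
  rw [Finset.sum_mul_sum, Finset.sum_comm]
  refine Finset.sum_le_sum fun i _ => ?_
  rw [norm_smul, Real.norm_eq_abs, abs_of_nonneg (hc i)]
  rw [← Finset.sum_mul, mul_comm]
  refine mul_le_mul_of_nonneg_right ?_ (hc i)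
  exact Finset.single_le_sum (f := fun i => ‖ν i‖) (fun i _ => norm_nonneg _) (Finset.mem_univ i)

theorem GFlow.key {T : ℝ} (d : GFlow n ι T) (hT : 0 < T) : ∃ C : ℝ, 1 ≤ C ∧
    ∀ (e : Fin n → ℝ) (α : ι → ℝ), (∀ i, 0 ≤ α i) → (∀ i, 0 ≤ e ⬝ᵥ d.ν i + α i) →
    ∀ t ∈ Ico 0 T, ∀ w : Cn n,
      2 * (e ⬝ᵥ w.1) + ∑ i, α i * Real.log (Fv d.φ (d.ν i) (t, w)) ≤ (∑ i, α i) * Real.log C := by
  obtain ⟨C, hC1, hC⟩ := d.chart 0 ⟨le_rfl, hT⟩
  refine ⟨C, hC1, fun e α hα0 hα t₀ ht₀ w₀ => ?_⟩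
  have hFpos : ∀ t ∈ Ico 0 T, ∀ w : Cn n, ∀ i, 0 < Fv d.φ (d.ν i) (t, w) := by
    intro t ht w i
    refine d.lev_pos t ht w _ ?_
    intro h
    exact d.ν_ne i (congrArg Prod.fst h)
  -- the bound for `B` from the chart
  have hB : ∀ (C' : ℝ), 1 ≤ C' → ∀ (t : ℝ), t ∈ Ico 0 T → ∀ (w : Cn n) (c : ι → ℝ),
      (∀ i, 0 ≤ c i) → w.1 = -∑ i, c i • d.ν i →
      (∀ i, Fv d.φ (d.ν i) (t, w) ≤ C' * Real.exp (-(2 * c i))) → ∀ ε : ℝ, 0 ≤ ε →
      linf e (t, w) + ∑ i, (α i + ε) * Real.log (Fv d.φ (d.ν i) (t, w)) ≤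
        (∑ i, (α i + ε)) * Real.log C' - 2 * ε * ∑ i, c i := by
    intro C' hC' t ht w c hc hw hF ε hε
    have hC0 : 0 < C' := by linarith
    have e1 : linf e (t, w) = ∑ i, -(2 * (c i * (e ⬝ᵥ d.ν i))) := by
      rw [linf_apply]
      change 2 * (e ⬝ᵥ w.1) = _
      rw [hw, dotProduct_neg, dotProduct_sum, mul_neg, Finset.mul_sum, ← Finset.sum_neg_distrib]
      refine Finset.sum_congr rfl fun i _ => ?_
      rw [dotProduct_smul, smul_eq_mul]
    have e2 : ∀ i, Real.log (Fv d.φ (d.ν i) (t, w)) ≤ Real.log C' - 2 * c i := by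
      intro i
      have := Real.log_le_log (hFpos t ht w i) (hF i)
      rwa [Real.log_mul hC0.ne' (Real.exp_pos _).ne', Real.log_exp, ← sub_eq_add_neg] at this
    rw [e1, ← Finset.sum_add_distrib, Finset.sum_mul, Finset.mul_sum, ← Finset.sum_sub_distrib]
    refine Finset.sum_le_sum fun i _ => ?_
    have h1 := mul_le_mul_of_nonneg_left (e2 i) (add_nonneg (hα0 i) hε)
    have h2 := mul_nonneg (hc i) (hα i)
    nlinarith
  -- the strict form
  have hstrict : ∀ ε : ℝ, 0 < ε → linf e (t₀, w₀) +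
      ∑ i, (α i + ε) * Real.log (Fv d.φ (d.ν i) (t₀, w₀)) ≤ (∑ i, (α i + ε)) * Real.log C := by
    intro ε hε
    set u : ℝ × Cn n → ℝ := fun q => linf e q +
      ∑ i, (α i + ε) * Real.log (Fv d.φ (d.ν i) q) with hu
    set K : ℝ := (∑ i, (α i + ε)) * Real.log C with hK
    -- initial time
    have h0 : ∀ w, u (0, w) ≤ K := by
      intro w
      obtain ⟨c, hc, hac, hF⟩ := hC w.1
      have h1 := hB C hC1 0 ⟨le_rfl, hT⟩ w c hc hac (fun i => hF 0 ⟨le_rfl, le_rfl⟩ w.2 i) ε hε.le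
      have h2 : 0 ≤ 2 * ε * ∑ i, c i :=
        mul_nonneg (by positivity) (Finset.sum_nonneg fun i _ => hc i)
      simp only [hu, hK]
      linarith
    rcases ht₀.1.eq_or_lt with h | hpos
    · rw [← h]
      exact h0 w₀
    -- the open set
    have hFs : ∀ i, ContDiffOn ℝ ∞ (Fv d.φ (d.ν i)) d.U := fun i =>
      contDiffOn_lev d.isOpen_U d.smooth_φ _
    set U' : Set (ℝ × Cn n) := ⋂ i, d.U ∩ (Fv d.φ (d.ν i)) ⁻¹' Ioi 0 with hU'
    set U'' : Set (ℝ × Cn n) := d.U ∩ U' with hU''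
    have hopen : IsOpen U'' := by
      refine d.isOpen_U.inter ?_
      exact isOpen_iInter_of_finite fun i =>
        (hFs i).continuousOn.isOpen_inter_preimage d.isOpen_U isOpen_Ioi
    have hsub0 : Ico 0 T ×ˢ (univ : Set (Cn n)) ⊆ U'' := by
      rintro ⟨t, w⟩ ⟨ht, -⟩
      have h1 : (t, w) ∈ d.U := d.sub_U ⟨ht, mem_univ _⟩
      exact ⟨h1, mem_iInter.2 fun i => ⟨h1, hFpos t ht w i⟩⟩
    have hIcc : Icc 0 t₀ ⊆ Ico 0 T := fun t ht => ⟨ht.1, lt_of_le_of_lt ht.2 ht₀.2⟩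
    have hsub : Icc 0 t₀ ×ˢ (univ : Set (Cn n)) ⊆ U'' :=
      (prod_mono hIcc subset_rfl).trans hsub0
    have hg : ∀ i, ContDiffOn ℝ ∞ (fun q => Real.log (Fv d.φ (d.ν i) q)) U'' := by
      intro i
      refine ((hFs i).mono inter_subset_left).log ?_
      intro q hq
      exact ne_of_gt (mem_Ioi.1 (mem_iInter.1 hq.2 i).2)
    have hus : ContDiffOn ℝ ∞ u U'' := by
      refine (linf e).contDiff.contDiffOn.add ?_
      exact ContDiffOn.sum fun i _ => contDiffOn_const.mul (hg i)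
    refine max_principle_periodic hpos hopen hsub hus ?_ ?_ K h0 ?_ t₀ ⟨hpos.le, le_rfl⟩ w₀
    · intro t a b m ht
      simp only [hu, linf_apply]
      congr 1
      refine Finset.sum_congr rfl fun i _ => ?_
      rw [d.periodic t (hIcc ht)]
    · intro c₀
      obtain ⟨C', hC'1, hC'⟩ := d.chart t₀ ht₀
      refine ⟨(∑ i, ‖d.ν i‖) * (((∑ i, (α i + ε)) * Real.log C' - c₀) / (2 * ε)), ?_⟩
      intro t ht w hw
      obtain ⟨c, hc, hac, hF⟩ := hC' w.1
      have h1 := hB C' hC'1 t (hIcc ht) w c hc hac (fun i => hF t ht w.2 i) ε hε.le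
      have h2 : ∑ i, c i ≤ ((∑ i, (α i + ε)) * Real.log C' - c₀) / (2 * ε) := by
        rw [le_div_iff₀ (by positivity)]
        have h3 : c₀ ≤ linf e (t, w) + ∑ i, (α i + ε) * Real.log (Fv d.φ (d.ν i) (t, w)) := hw
        linarith
      rw [hac]
      refine (norm_le_sum d.ν hc).trans ?_
      exact mul_le_mul_of_nonneg_left h2 (Finset.sum_nonneg fun i _ => norm_nonneg _)
    · intro t ht w hneg
      have htT : t ∈ Ioo 0 T := ⟨ht.1, lt_of_le_of_lt ht.2 ht₀.2⟩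
      have hpU : (t, w) ∈ U'' := hsub ⟨⟨ht.1.le, ht.2⟩, mem_univ _⟩
      obtain ⟨W, hW⟩ := d.evol t htT w
      have h1 : D (1, 0) u (t, w) =
          ∑ i, (α i + ε) * dt (fun q => Real.log (Fv d.φ (d.ν i) q)) (t, w) := by
        simp only [hu]
        rw [D_u (linf e) _ (fun i => diffAt_of_contDiffOn hopen (hg i) hpU)]
        have : linf e ((1 : ℝ), (0 : Cn n)) = 0 := by
          rw [linf_apply]
          simp
        rw [this, zero_add]
        rfl
      have h2 : ∀ c, lev u (W c) (t, w) =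
          ∑ i, (α i + ε) * lev (fun q => Real.log (Fv d.φ (d.ν i) q)) (W c) (t, w) := fun c => by
        simp only [hu]
        exact lev_u hopen hg (linf e) _ hpU (W c)
      have h3 : ∀ c, lev u (W c) (t, w) ≤ 0 := fun c => by
        unfold lev
        have := add_nonpos (hneg (W c)) (hneg (J (W c)))
        linarith
      rw [h1]
      calc ∑ i, (α i + ε) * dt (fun q => Real.log (Fv d.φ (d.ν i) q)) (t, w)
          ≤ ∑ i, (α i + ε) * ∑ c, lev (fun q => Real.log (Fv d.φ (d.ν i) q)) (W c) (t, w) :=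
            Finset.sum_le_sum fun i _ => mul_le_mul_of_nonneg_left (hW _ (d.ν_ne i))
              (add_nonneg (hα0 i) hε.le)
        _ = ∑ c, lev u (W c) (t, w) := by
            simp only [h2, Finset.mul_sum]
            exact Finset.sum_comm
        _ ≤ 0 := Finset.sum_nonpos fun c _ => h3 c
  -- let `ε → 0`
  have hlim : Filter.Tendsto (fun ε : ℝ => (∑ i, (α i + ε)) * Real.log C -
      (linf e (t₀, w₀) + ∑ i, (α i + ε) * Real.log (Fv d.φ (d.ν i) (t₀, w₀))))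
      (nhdsWithin 0 (Ioi 0)) (nhds ((∑ i, (α i + 0)) * Real.log C -
      (linf e (t₀, w₀) + ∑ i, (α i + 0) * Real.log (Fv d.φ (d.ν i) (t₀, w₀))))) := by
    refine (Continuous.tendsto ?_ (0 : ℝ)).mono_left nhdsWithin_le_nhds
    fun_prop
  have h := ge_of_tendsto hlim (Filter.eventually_of_mem self_mem_nhdsWithin fun ε hε => by
    have := hstrict ε hε
    change 0 ≤ _
    linarith)
  simp only [add_zero, linf_apply] at h
  linarith

theorem GFlow.uniform {n : ℕ} {ι : Type} [Fintype ι] {T : ℝ} (d : GFlow n ι T) :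
    ∃ C : ℝ, 0 < C ∧ ∀ t ∈ Ico 0 T, GoodAt d.ν C d.φ t := by
  classical
  rcases le_or_gt T 0 with hT | hT
  · exact ⟨1, one_pos, fun t ht => absurd (ht.1.trans_lt ht.2) (not_lt.2 hT)⟩
  obtain ⟨C, hC1, hC⟩ := d.key hT
  have hC0 : 0 < C := by linarith
  have hFpos : ∀ t ∈ Ico 0 T, ∀ w : Cn n, ∀ i, 0 < Fv d.φ (d.ν i) (t, w) := by
    intro t ht w i
    refine d.lev_pos t ht w _ ?_
    intro h
    exact d.ν_ne i (congrArg Prod.fst h)
  refine ⟨C, hC0, fun t ht => ⟨fun i w => ?_, fun w e => ?_⟩⟩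
  · have h := hC 0 (Pi.single i 1) (fun j => by
      rcases eq_or_ne j i with rfl | hj
      · simp
      · simp [hj]) (fun j => by
      rw [zero_dotProduct, zero_add]
      rcases eq_or_ne j i with rfl | hj
      · simp
      · simp [hj]) t ht w
    rw [zero_dotProduct, mul_zero, zero_add, Finset.sum_eq_single i] at h
    · rw [Finset.sum_eq_single i] at h
      · simp only [Pi.single_eq_same, one_mul] at h
        exact (Real.log_le_log_iff (hFpos t ht w i) hC0).1 h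
      · intro j _ hj
        simp [hj]
      · intro hi
        exact absurd (Finset.mem_univ i) hi
    · intro j _ hj
      simp [hj]
    · intro hi
      exact absurd (Finset.mem_univ i) hi
  · have h := hC e (fun i => max (-(e ⬝ᵥ d.ν i)) 0) (fun i => le_max_right _ _) (fun i => by
      have := le_max_left (-(e ⬝ᵥ d.ν i)) 0
      linarith) t ht w
    refine h.trans ?_
    rw [mul_comm]
    have h1 : Real.log C ≤ C := (Real.log_le_sub_one_of_pos hC0).trans (by linarith)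
    have h2 : ∑ i, max (-(e ⬝ᵥ d.ν i)) 0 ≤ ∑ i, |e ⬝ᵥ d.ν i| :=
      Finset.sum_le_sum fun i _ => max_le (neg_le_abs _) (abs_nonneg _)
    have h3 : 0 ≤ ∑ i, max (-(e ⬝ᵥ d.ν i)) 0 := Finset.sum_nonneg fun i _ => le_max_right _ _
    exact (mul_le_mul_of_nonneg_right h1 h3).trans (mul_le_mul_of_nonneg_left h2 hC0.le)

end Pool.Agent.ToricKRF.G
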