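import Mathlib

/-!
# The path from a point to a bounded region

`G : E → E →L[ℝ] E →L[ℝ] ℝ` is a field of positive definite symmetric forms on `E = ℝ^n`.  With
`r(a) = √(1 + |a|^2)`, `ℓ = dr`, `Y = G⁻¹ ℓ`, `q = ℓ(Y)`, the path is a solution of
`a' = -Y / (1 + q)`; along it `r' = -q / (1 + q)` and `√G(a', a') ≤ q^{-1/2} |r'|`.
-/

open scoped ContDiff NNReal
open Set

namespace Pool.Agent.ToricKRF.G

/-- Picard-Lindelöf for a bounded Lipschitz vector field. -/
theorem exists_solution {E : Type*} [NormedAddCommGroup E] [NormedSpace ℝ E] [CompleteSpace E]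
    {X : E → E} {K L : ℝ≥0} (hl : LipschitzWith K X) (hb : ∀ x, ‖X x‖ ≤ L) (x0 : E) {S : ℝ}
    (hS : 0 ≤ S) :
    ∃ α : ℝ → E, α 0 = x0 ∧ ∀ s ∈ Ioo (-1) (S + 1), HasDerivAt α (X (α s)) s := by
  have h0 : (0 : ℝ) ∈ Icc (-1) (S + 1) := ⟨by norm_num, by linarith⟩
  obtain ⟨A, hA⟩ : ∃ A : ℝ≥0, (A : ℝ) = S + 1 := ⟨⟨S + 1, by linarith⟩, rfl⟩
  have h : IsPicardLindelof (fun _ => X) (tmin := -1) (tmax := S + 1) ⟨0, h0⟩ x0
      (L * A) 0 L K := by
    refine IsPicardLindelof.of_time_independent (fun x _ => hb x) hl.lipschitzOnWith ?_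
    have h1 : max (S + 1 - 0) (0 - (-1) : ℝ) = S + 1 := by
      rw [max_eq_left (by linarith)]
      ring
    change (L : ℝ) * max (S + 1 - 0) (0 - (-1) : ℝ) ≤ (L * A : ℝ≥0) - 0
    rw [h1, sub_zero, NNReal.coe_mul, hA]
  obtain ⟨α, hα0, hα⟩ := h.exists_eq_forall_mem_Icc_hasDerivWithinAt₀
  refine ⟨α, hα0, fun s hs => ?_⟩
  exact (hα s (Ioo_subset_Icc_self hs)).hasDerivAt (Icc_mem_nhds hs.1 hs.2)

/-- the dot product as a bilinear form -/
noncomputable def dotL (n : ℕ) : (Fin n → ℝ) →L[ℝ] (Fin n → ℝ) →L[ℝ] ℝ :=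
  ∑ i, (ContinuousLinearMap.proj i : (Fin n → ℝ) →L[ℝ] ℝ).smulRight
    (ContinuousLinearMap.proj i : (Fin n → ℝ) →L[ℝ] ℝ)

theorem dotL_apply {n : ℕ} (x y : Fin n → ℝ) : dotL n x y = x ⬝ᵥ y := by
  simp [dotL, dotProduct]

/-- `r(a) = √(1 + |a|^2)` -/
noncomputable def rad {n : ℕ} (a : Fin n → ℝ) : ℝ := √(1 + a ⬝ᵥ a)

theorem dot_self_nonneg {n : ℕ} (a : Fin n → ℝ) : 0 ≤ a ⬝ᵥ a :=
  Finset.sum_nonneg fun i _ => mul_self_nonneg (a i)

theorem rad_sq {n : ℕ} (a : Fin n → ℝ) : rad a ^ 2 = 1 + a ⬝ᵥ a :=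
  Real.sq_sqrt (by linarith [dot_self_nonneg a])

theorem one_le_rad {n : ℕ} (a : Fin n → ℝ) : 1 ≤ rad a :=
  Real.one_le_sqrt.2 (by linarith [dot_self_nonneg a])

theorem rad_pos {n : ℕ} (a : Fin n → ℝ) : 0 < rad a := one_pos.trans_le (one_le_rad a)

theorem norm_le_rad {n : ℕ} (a : Fin n → ℝ) : ‖a‖ ≤ rad a := by
  rw [pi_norm_le_iff_of_nonneg (rad_pos a).le]
  intro i
  rw [Real.norm_eq_abs]
  apply abs_le_of_sq_le_sq _ (rad_pos a).le
  rw [rad_sq]
  have h1 : a i * a i ≤ a ⬝ᵥ a :=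
    Finset.single_le_sum (f := fun j => a j * a j) (fun j _ => mul_self_nonneg (a j))
      (Finset.mem_univ i)
  nlinarith

theorem contDiff_rad (n : ℕ) : ContDiff ℝ ∞ (rad (n := n)) := by
  have h1 : ContDiff ℝ ∞ (fun a : Fin n → ℝ => 1 + a ⬝ᵥ a) := by
    have : ContDiff ℝ ∞ (fun a : Fin n → ℝ => 1 + dotL n a a) := by fun_prop
    simpa only [dotL_apply] using this
  exact h1.sqrt fun a => by linarith [dot_self_nonneg a]

/-- `ℓ = dr`, the functional `a/r · `. -/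
noncomputable def ell {n : ℕ} (a : Fin n → ℝ) : (Fin n → ℝ) →L[ℝ] ℝ := (rad a)⁻¹ • dotL n a

theorem ell_apply {n : ℕ} (a y : Fin n → ℝ) : ell a y = ((rad a)⁻¹ • a) ⬝ᵥ y := by
  simp [ell, dotL_apply, smul_dotProduct]

theorem contDiff_ell (n : ℕ) : ContDiff ℝ ∞ (ell (n := n)) := by
  have h1 : ContDiff ℝ ∞ (fun a : Fin n → ℝ => (rad a)⁻¹) :=
    (contDiff_rad n).inv fun a => (rad_pos a).ne'
  exact h1.smul (dotL n).contDiff

theorem hasDerivAt_rad {n : ℕ} {α : ℝ → Fin n → ℝ} {v : Fin n → ℝ} {s : ℝ}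
    (h : HasDerivAt α v s) : HasDerivAt (fun s => rad (α s)) (ell (α s) v) s := by
  have h1 : HasDerivAt (fun s => dotL n (α s) (α s)) (dotL n v (α s) + dotL n (α s) v) s := by
    have h2 : HasDerivAt (fun s => dotL n (α s)) (dotL n v) s :=
      (dotL n).hasFDerivAt.comp_hasDerivAt s h
    exact h2.clm_apply h
  have h3 : HasDerivAt (fun s => 1 + dotL n (α s) (α s)) (dotL n v (α s) + dotL n (α s) v) s :=
    h1.const_add 1
  have h4 := h3.sqrt (by rw [dotL_apply]; linarith [dot_self_nonneg (α s)])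
  simp only [dotL_apply] at h4
  refine h4.congr_deriv ?_
  rw [ell_apply, smul_dotProduct, dotProduct_comm v (α s), smul_eq_mul]
  have := (rad_pos (α s)).ne'
  change (α s ⬝ᵥ v + α s ⬝ᵥ v) / (2 * rad (α s)) = _
  field_simp
  ring

theorem ell_self {n : ℕ} (a : Fin n → ℝ) : rad a - 1 ≤ ell a a := by
  rw [ell_apply, smul_dotProduct, smul_eq_mul]
  have h1 := rad_sq a
  have h2 := one_le_rad a
  have h3 := rad_pos a
  have h4 : (rad a)⁻¹ * a ⬝ᵥ a = rad a - (rad a)⁻¹ := by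
    have : a ⬝ᵥ a = rad a ^ 2 - 1 := by linarith
    rw [this]
    field_simp
  rw [h4]
  have h5 : (rad a)⁻¹ ≤ 1 := inv_le_one_of_one_le₀ h2
  linarith

theorem abs_ell_le {n : ℕ} (a v : Fin n → ℝ) : |ell a v| ≤ rad v := by
  rw [ell_apply, smul_dotProduct, smul_eq_mul, abs_mul, abs_of_pos (inv_pos.2 (rad_pos a))]
  have h1 : (a ⬝ᵥ v) ^ 2 ≤ (a ⬝ᵥ a) * (v ⬝ᵥ v) := by
    have := Finset.sum_mul_sq_le_sq_mul_sq Finset.univ a v
    simpa only [dotProduct, ← pow_two] using this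
  have h2 : |a ⬝ᵥ v| ≤ rad a * rad v := by
    apply abs_le_of_sq_le_sq _ (mul_nonneg (rad_pos a).le (rad_pos v).le)
    rw [mul_pow, rad_sq, rad_sq]
    have := dot_self_nonneg a
    have := dot_self_nonneg v
    nlinarith
  rw [inv_mul_le_iff₀ (rad_pos a)]
  exact h2

section pointwise

variable {n : ℕ} {H : (Fin n → ℝ) →L[ℝ] (Fin n → ℝ) →L[ℝ] ℝ}
  (hpos : ∀ v, v ≠ 0 → 0 < H v v)

include hpos

/-- a positive definite form as a continuous linear equivalence with the dual. -/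
theorem exists_form_equiv :
    ∃ e : (Fin n → ℝ) ≃L[ℝ] ((Fin n → ℝ) →L[ℝ] ℝ),
      (e : (Fin n → ℝ) →L[ℝ] ((Fin n → ℝ) →L[ℝ] ℝ)) = H := by
  have hinj : Function.Injective (H : (Fin n → ℝ) →ₗ[ℝ] ((Fin n → ℝ) →L[ℝ] ℝ)) := by
    rw [injective_iff_map_eq_zero]
    intro v hv
    by_contra hne
    have h1 := hpos v hne
    have h2 : H v = 0 := hv
    rw [h2] at h1
    simp at h1
  have hdim : Module.finrank ℝ (Fin n → ℝ) = Module.finrank ℝ ((Fin n → ℝ) →L[ℝ] ℝ) := by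
    rw [← (LinearMap.toContinuousLinearMap (𝕜 := ℝ) (E := Fin n → ℝ) (F' := ℝ)).finrank_eq]
    exact (Subspace.dual_finrank_eq (K := ℝ) (V := Fin n → ℝ)).symm
  let e0 : (Fin n → ℝ) ≃ₗ[ℝ] ((Fin n → ℝ) →L[ℝ] ℝ) := LinearEquiv.ofInjectiveOfFinrankEq
    (H : (Fin n → ℝ) →ₗ[ℝ] ((Fin n → ℝ) →L[ℝ] ℝ)) hinj hdim
  refine ⟨e0.toContinuousLinearEquiv, ?_⟩
  ext v w
  rfl

theorem form_inverse (l : (Fin n → ℝ) →L[ℝ] ℝ) : H (H.inverse l) = l := by
  obtain ⟨e, he⟩ := exists_form_equiv hpos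
  rw [← he, ContinuousLinearMap.inverse_equiv]
  exact e.apply_symm_apply l

theorem form_nonneg (v : Fin n → ℝ) : 0 ≤ H v v := by
  by_cases h : v = 0
  · rw [h]; simp
  · exact (hpos v h).le

theorem form_cs (hsymm : ∀ v w, H v w = H w v) (v w : Fin n → ℝ) :
    (H v w) ^ 2 ≤ H v v * H w w := by
  by_cases hv : v = 0
  · rw [hv]; simp
  have h1 := hpos v hv
  have h2 := form_nonneg hpos (H v v • w - H v w • v)
  have h3 : H (H v v • w - H v w • v) (H v v • w - H v w • v) =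
      H v v * (H v v * H w w - (H v w) ^ 2) := by
    simp only [map_sub, map_smul, sub_apply, smul_apply, smul_eq_mul, hsymm w v]
    ring
  rw [h3] at h2
  nlinarith [nonneg_of_mul_nonneg_right h2 h1]

/-- The estimate of `q = ℓ(H⁻¹ ℓ)` from below. -/
theorem q_lower (hsymm : ∀ v w, H v w = H w v) {ι : Type*} [Fintype ι] (ν : ι → Fin n → ℝ)
    {C : ℝ} (a : Fin n → ℝ)
    (hB : ∀ e : Fin n → ℝ, 2 * (e ⬝ᵥ a) +
      ∑ i, max (-(e ⬝ᵥ ν i)) 0 * Real.log (H (ν i) (ν i)) ≤ C * ∑ i, |e ⬝ᵥ ν i|)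
    (ha : 2 + 2 * (Fintype.card ι : ℝ) + max C 0 * (1 + ∑ i, rad (ν i)) < 2 * rad a) :
    Real.exp ((2 * rad a -
      (2 + 2 * (Fintype.card ι : ℝ) + max C 0 * (1 + ∑ i, rad (ν i)))) /
        (1 + ∑ i, rad (ν i))) ≤ ell a (H.inverse (ell a)) := by
  set M : ℝ := 1 + ∑ i, rad (ν i) with hM
  set K : ℝ := 2 + 2 * (Fintype.card ι : ℝ) + max C 0 * M with hK
  set y := H.inverse (ell a) with hy
  have hHy : H y = ell a := form_inverse hpos _
  set q := ell a y with hq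
  have hsum0 : 0 ≤ ∑ i, rad (ν i) := Finset.sum_nonneg fun i _ => (rad_pos _).le
  have hM0 : 0 < M := by rw [hM]; linarith
  have hC0 : 0 ≤ max C 0 := le_max_right _ _
  have hN0 : (0 : ℝ) ≤ Fintype.card ι := Nat.cast_nonneg _
  have hK2 : 2 ≤ K := by rw [hK]; nlinarith
  have hr1 : 1 < rad a := by linarith
  have hy0 : y ≠ 0 := by
    intro h
    have h1 : ell a = 0 := by rw [← hHy, h, map_zero]
    have h2 := ell_self a
    rw [h1] at h2
    simp at h2
    linarith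
  have hq0 : 0 < q := by
    rw [hq, ← hHy]
    exact hpos y hy0
  -- the terms of the sum
  have hterm : ∀ i, -2 - max (-(ell a (ν i))) 0 * Real.log q ≤
      max (-(ell a (ν i))) 0 * Real.log (H (ν i) (ν i)) := by
    intro i
    by_cases hb : 0 < -(ell a (ν i))
    · rw [max_eq_left hb.le]
      set β := -(ell a (ν i)) with hβ
      have hν : ν i ≠ 0 := by
        intro h
        rw [h, map_zero, neg_zero] at hβ
        linarith
      have hF := hpos _ hν
      have h1 : β ^ 2 ≤ q * H (ν i) (ν i) := by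
        have := form_cs hpos hsymm y (ν i)
        rw [hHy] at this
        rw [hβ, neg_sq]
        exact this
      have h2 : 2 * Real.log β ≤ Real.log q + Real.log (H (ν i) (ν i)) := by
        rw [← Real.log_mul hq0.ne' hF.ne']
        have h3 := Real.log_le_log (by positivity) h1
        rwa [Real.log_pow, Nat.cast_ofNat] at h3
      have h4 : 1 - β⁻¹ ≤ Real.log β := Real.one_sub_inv_le_log_of_pos hb
      have h5 : β * (1 - β⁻¹) = β - 1 := by
        field_simp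
      have h6 : β * (1 - β⁻¹) ≤ β * Real.log β := mul_le_mul_of_nonneg_left h4 hb.le
      have h7 : β * (2 * Real.log β) ≤ β * (Real.log q + Real.log (H (ν i) (ν i))) :=
        mul_le_mul_of_nonneg_left h2 hb.le
      nlinarith
    · rw [max_eq_right (not_lt.1 hb)]
      simp
  set s : ℝ := ∑ i, max (-(ell a (ν i))) 0 with hs
  have hs0 : 0 ≤ s := Finset.sum_nonneg fun i _ => le_max_right _ _
  have hsM : s ≤ M := by
    have : s ≤ ∑ i, rad (ν i) := Finset.sum_le_sum fun i _ =>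
      max_le ((neg_le_abs _).trans (abs_ell_le a _)) (rad_pos _).le
    rw [hM]; linarith
  have hB' := hB ((rad a)⁻¹ • a)
  simp only [← ell_apply] at hB'
  have h1 : ∑ i, (-2 - max (-(ell a (ν i))) 0 * Real.log q) =
      -(2 * (Fintype.card ι : ℝ)) - s * Real.log q := by
    rw [Finset.sum_sub_distrib, Finset.sum_const, Finset.card_univ, ← Finset.sum_mul,
      nsmul_eq_mul]
    ring
  have h2 := Finset.sum_le_sum fun i (_ : i ∈ Finset.univ) => hterm i
  rw [h1] at h2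
  have h3 : C * ∑ i, |ell a (ν i)| ≤ max C 0 * M := by
    have h4 : ∑ i, |ell a (ν i)| ≤ M := by
      have : ∑ i, |ell a (ν i)| ≤ ∑ i, rad (ν i) := Finset.sum_le_sum fun i _ => abs_ell_le a _
      rw [hM]; linarith
    have h5 : 0 ≤ ∑ i, |ell a (ν i)| := Finset.sum_nonneg fun i _ => abs_nonneg _
    calc C * ∑ i, |ell a (ν i)| ≤ max C 0 * ∑ i, |ell a (ν i)| :=
          mul_le_mul_of_nonneg_right (le_max_left _ _) h5
      _ ≤ max C 0 * M := mul_le_mul_of_nonneg_left h4 hC0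
  have h4 := ell_self a
  have h5 : 2 * rad a - K ≤ s * Real.log q := by
    rw [hK]; linarith
  have h6 : 0 < s * Real.log q := by linarith
  have h7 : 0 < Real.log q := pos_of_mul_pos_right h6 hs0
  have h8 : s * Real.log q ≤ M * Real.log q := mul_le_mul_of_nonneg_right hsM h7.le
  have h9 : (2 * rad a - K) / M ≤ Real.log q := by
    rw [div_le_iff₀ hM0]
    linarith
  calc Real.exp ((2 * rad a - K) / M) ≤ Real.exp (Real.log q) := Real.exp_le_exp.2 h9
    _ = q := Real.exp_log hq0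

end pointwise

section path

variable {n : ℕ} {G : (Fin n → ℝ) → (Fin n → ℝ) →L[ℝ] (Fin n → ℝ) →L[ℝ] ℝ}

theorem contDiff_inverse_ell (hG : ContDiff ℝ 1 G) (hpos : ∀ a v, v ≠ 0 → 0 < G a v v) :
    ContDiff ℝ 1 (fun a => (G a).inverse (ell a)) := by
  rw [contDiff_iff_contDiffAt]
  intro a
  obtain ⟨e, he⟩ := exists_form_equiv (hpos a)
  have h1 : ContDiffAt ℝ 1 ContinuousLinearMap.inverse (G a) := by
    rw [← he]
    exact contDiffAt_map_inverse e
  have h2 : ContDiffAt ℝ 1 (fun a => (G a).inverse) a := h1.comp a hG.contDiffAt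
  exact h2.clm_apply ((contDiff_ell n).of_le (by exact_mod_cast le_top)).contDiffAt

theorem exists_inner_path (hG : ContDiff ℝ 1 G) (hpos : ∀ a v, v ≠ 0 → 0 < G a v v)
    {K M : ℝ} (hM : 0 < M) (hK : 0 ≤ K)
    (hq : ∀ a, K < 2 * rad a →
      Real.exp ((2 * rad a - K) / M) ≤ ell a ((G a).inverse (ell a))) (a0 : Fin n → ℝ) :
    ∃ γ : ℝ → Fin n → ℝ, γ 0 = a0 ∧ rad (γ 1) ≤ K / 2 + 1 ∧
      (∀ s ∈ Icc (0 : ℝ) 1, ContDiffAt ℝ 1 γ s) ∧
      ∫ s in (0 : ℝ)..1, √(G (γ s) (deriv γ s) (deriv γ s)) ≤ M := by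
  by_cases hr : rad a0 ≤ K / 2 + 1
  · refine ⟨fun _ => a0, rfl, hr, fun s _ => contDiffAt_const, ?_⟩
    simp [hM.le]
  rw [not_le] at hr
  set r0 := rad a0 with hr0
  set Y : (Fin n → ℝ) → (Fin n → ℝ) := fun a => (G a).inverse (ell a) with hY
  set q : (Fin n → ℝ) → ℝ := fun a => ell a (Y a) with hqdef
  have hGY : ∀ a, G a (Y a) = ell a := fun a => form_inverse (hpos a) _
  have hq0 : ∀ a, 0 ≤ q a := by
    intro a
    simp only [hqdef]
    rw [← hGY a]
    exact form_nonneg (hpos a) _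
  have hYc : ContDiff ℝ 1 Y := contDiff_inverse_ell hG hpos
  have hqc : ContDiff ℝ 1 q := ((contDiff_ell n).of_le (by exact_mod_cast le_top)).clm_apply hYc
  let χ : ContDiffBump (0 : Fin n → ℝ) := ⟨r0, r0 + 1, rad_pos a0, by linarith⟩
  set X : (Fin n → ℝ) → (Fin n → ℝ) := fun a => -(χ a * (1 + q a)⁻¹) • Y a with hX
  have hXc : ContDiff ℝ 1 X := by
    have h1 : ContDiff ℝ 1 (fun a => (1 + q a)⁻¹) :=
      (contDiff_const.add hqc).inv fun a => by linarith [hq0 a]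
    exact ((χ.contDiff.mul h1).neg).smul hYc
  have hXs : HasCompactSupport X := by
    refine χ.hasCompactSupport.mono' ?_
    refine Function.support_subset_iff'.2 ?_ |>.trans (subset_tsupport _)
    intro a ha
    simp only [Function.mem_support, not_not] at ha
    simp [hX, ha]
  obtain ⟨Kl, hKl⟩ := hXc.lipschitzWith_of_hasCompactSupport hXs one_ne_zero
  obtain ⟨Lb, hLb⟩ := hXs.exists_bound_of_continuous hXc.continuous
  have hLb' : ∀ x, ‖X x‖ ≤ (Real.toNNReal Lb : ℝ) := fun x =>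
    (hLb x).trans (Real.le_coe_toNNReal _)
  set S : ℝ := 2 * r0 with hS
  have hr0pos : 0 < r0 := rad_pos a0
  obtain ⟨α, hα0, hα⟩ := exists_solution hKl hLb' a0 (show 0 ≤ S by rw [hS]; linarith)
  -- the radius along the curve
  set ρ : ℝ → ℝ := fun s => rad (α s) with hρ
  have hρd : ∀ s ∈ Ioo (-1) (S + 1),
      HasDerivAt ρ (-(χ (α s) * (q (α s) * (1 + q (α s))⁻¹))) s := by
    intro s hs
    refine (hasDerivAt_rad (hα s hs)).congr_deriv ?_
    simp only [hX, map_smul, smul_eq_mul]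
    ring
  have hSI : Icc 0 S ⊆ Ioo (-1) (S + 1) := fun s hs =>
    ⟨by linarith [hs.1], by linarith [hs.2]⟩
  have hS0 : 0 ≤ S := by rw [hS]; linarith
  have hρc : ContinuousOn ρ (Icc 0 S) := fun s hs =>
    (hρd s (hSI hs)).continuousAt.continuousWithinAt
  have hρd' : DifferentiableOn ℝ ρ (interior (Icc 0 S)) := fun s hs =>
    (hρd s (hSI (interior_subset hs))).differentiableAt.differentiableWithinAt
  have hqq : ∀ a, 0 ≤ q a * (1 + q a)⁻¹ := fun a =>
    mul_nonneg (hq0 a) (inv_nonneg.2 (by linarith [hq0 a]))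
  have hanti : AntitoneOn ρ (Icc 0 S) := by
    refine antitoneOn_of_deriv_nonpos (convex_Icc 0 S) hρc hρd' fun s hs => ?_
    rw [(hρd s (hSI (interior_subset hs))).deriv]
    exact neg_nonpos.2 (mul_nonneg χ.nonneg (hqq _))
  have h0S : (0 : ℝ) ∈ Icc 0 S := ⟨le_rfl, hS0⟩
  have hSS : S ∈ Icc 0 S := ⟨hS0, le_rfl⟩
  have hρ0 : ρ 0 = r0 := by simp only [hρ, hα0, hr0]
  have hχ1 : ∀ s ∈ Icc 0 S, χ (α s) = 1 := by
    intro s hs
    apply χ.one_of_mem_closedBall
    rw [mem_closedBall_zero_iff]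
    have h1 : ρ s ≤ r0 := hρ0 ▸ hanti h0S hs hs.1
    exact (norm_le_rad (α s)).trans h1
  have hqe : ∀ s ∈ Icc 0 S, K / 2 + 1 ≤ ρ s → Real.exp ((2 * ρ s - K) / M) ≤ q (α s) := by
    intro s hs h1
    exact hq (α s) (by linarith)
  have hρS : ρ S ≤ K / 2 + 1 := by
    by_contra h
    rw [not_le] at h
    have h1 : ρ S - ρ 0 ≤ -(1 / 2) * (S - 0) := by
      refine (convex_Icc 0 S).image_sub_le_mul_sub_of_deriv_le hρc hρd' (fun s hs => ?_) 0 h0S S
        hSS hS0
      have hs' := interior_subset hs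
      rw [(hρd s (hSI hs')).deriv, hχ1 s hs', one_mul]
      have h2 : K / 2 + 1 ≤ ρ s := h.le.trans (hanti hs' hSS hs'.2)
      have h3 : 1 ≤ q (α s) := by
        refine le_trans (Real.one_le_exp ?_) (hqe s hs' h2)
        apply div_nonneg _ hM.le
        linarith
      rw [neg_le_neg_iff, ← div_eq_mul_inv, div_le_div_iff₀ (by norm_num) (by linarith)]
      linarith
    rw [hρ0, hS] at h1
    have h2 : ρ S ≤ 0 := by
      have : ρ (2 * r0) = ρ S := by rw [hS]
      rw [this] at h1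
      linarith
    linarith
  obtain ⟨s1, hs1, hρs1⟩ : ∃ s1 ∈ Icc 0 S, ρ s1 = K / 2 + 1 := by
    have := intermediate_value_Icc' hS0 hρc
    exact this ⟨hρS, by rw [hρ0]; exact hr.le⟩
  have hρge : ∀ s ∈ Icc 0 s1, K / 2 + 1 ≤ ρ s := by
    intro s hs
    rw [← hρs1]
    exact hanti ⟨hs.1, hs.2.trans hs1.2⟩ hs1 hs.2
  have hscale : ∀ s ∈ Icc (0 : ℝ) 1, s1 * s ∈ Icc 0 s1 := fun s hs =>
    ⟨mul_nonneg hs1.1 hs.1, mul_le_of_le_one_right hs1.1 hs.2⟩
  have hscale' : ∀ s ∈ Icc (0 : ℝ) 1, s1 * s ∈ Icc 0 S := fun s hs =>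
    ⟨(hscale s hs).1, (hscale s hs).2.trans hs1.2⟩
  -- smoothness of `α`
  have hαC : ContDiffOn ℝ 1 α (Ioo (-1) (S + 1)) := by
    have h1 : (1 : WithTop ℕ∞) = 0 + 1 := by norm_num
    rw [h1, contDiffOn_succ_iff_deriv_of_isOpen isOpen_Ioo]
    refine ⟨fun s hs => (hα s hs).differentiableAt.differentiableWithinAt, by simp, ?_⟩
    rw [contDiffOn_zero]
    have h2 : ContinuousOn (fun s => X (α s)) (Ioo (-1) (S + 1)) :=
      hXc.continuous.comp_continuousOn fun s hs => (hα s hs).continuousAt.continuousWithinAt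
    exact h2.congr fun s hs => (hα s hs).deriv
  set γ : ℝ → Fin n → ℝ := fun s => α (s1 * s) with hγ
  have hγC : ∀ s ∈ Icc (0 : ℝ) 1, ContDiffAt ℝ 1 γ s := by
    intro s hs
    have h1 : ContDiffAt ℝ 1 α (s1 * s) :=
      hαC.contDiffAt (isOpen_Ioo.mem_nhds (hSI (hscale' s hs)))
    exact h1.comp s (by fun_prop)
  have hγd : ∀ s ∈ Icc (0 : ℝ) 1, HasDerivAt γ (s1 • X (α (s1 * s))) s := by
    intro s hs
    have h1 := hα (s1 * s) (hSI (hscale' s hs))
    have h2 : HasDerivAt (fun s : ℝ => s1 * s) s1 s := by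
      simpa using (hasDerivAt_id s).const_mul s1
    exact h1.scomp s h2
  -- the primitive
  set P : ℝ → ℝ := fun s => M * Real.exp (-((2 * ρ (s1 * s) - K) / (2 * M))) with hP
  set P' : ℝ → ℝ := fun s => s1 * (Real.exp (-((2 * ρ (s1 * s) - K) / (2 * M))) *
    (q (α (s1 * s)) * (1 + q (α (s1 * s)))⁻¹)) with hP'
  have hPd : ∀ s ∈ Icc (0 : ℝ) 1, HasDerivAt P (P' s) s := by
    intro s hs
    have h1 := hρd (s1 * s) (hSI (hscale' s hs))
    rw [hχ1 _ (hscale' s hs), one_mul] at h1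
    have h2 : HasDerivAt (fun s : ℝ => s1 * s) s1 s := by
      simpa using (hasDerivAt_id s).const_mul s1
    have h3 : HasDerivAt (fun s => ρ (s1 * s))
        (-(q (α (s1 * s)) * (1 + q (α (s1 * s)))⁻¹) * s1) s := h1.comp s h2
    have h4 : HasDerivAt P (M * (Real.exp (-((2 * ρ (s1 * s) - K) / (2 * M))) *
        -(2 * (-(q (α (s1 * s)) * (1 + q (α (s1 * s)))⁻¹) * s1) / (2 * M)))) s :=
      ((((h3.const_mul 2).sub_const K).div_const (2 * M)).neg.exp).const_mul M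
    refine h4.congr_deriv ?_
    simp only [hP']
    field_simp
  have hγc : ContinuousOn (fun s => α (s1 * s)) (Icc 0 1) := fun s hs =>
    (hγd s hs).continuousAt.continuousWithinAt
  have hρc' : ContinuousOn (fun s => ρ (s1 * s)) (Icc 0 1) :=
    (contDiff_rad n).continuous.comp_continuousOn hγc
  have hqc' : ContinuousOn (fun s => q (α (s1 * s))) (Icc 0 1) :=
    hqc.continuous.comp_continuousOn hγc
  have hP'c : ContinuousOn P' (Icc 0 1) := by
    apply ContinuousOn.mul continuousOn_const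
    apply ContinuousOn.mul
    · apply ContinuousOn.rexp
      exact (((continuousOn_const.mul hρc').sub continuousOn_const).div_const _).neg
    · apply hqc'.mul
      exact (continuousOn_const.add hqc').inv₀ fun s hs =>
        (show 0 < 1 + q (α (s1 * s)) by linarith [hq0 (α (s1 * s))]).ne'
  -- the speed
  have hspeed : ∀ s ∈ Icc (0 : ℝ) 1, √(G (γ s) (deriv γ s) (deriv γ s)) ≤ P' s := by
    intro s hs
    rw [(hγd s hs).deriv]
    set a := α (s1 * s) with ha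
    have h1 : G a (s1 • X a) (s1 • X a) = (s1 * (1 + q a)⁻¹) ^ 2 * q a := by
      simp only [hX]
      rw [hχ1 _ (hscale' s hs), one_mul]
      simp only [map_smul, smul_apply, smul_eq_mul, hGY]
      simp only [hqdef]
      ring
    change √(G a (s1 • X a) (s1 • X a)) ≤ _
    have h2 : 0 < 1 + q a := by linarith [hq0 a]
    have h3 : 0 ≤ s1 * (1 + q a)⁻¹ := mul_nonneg hs1.1 (inv_pos.2 h2).le
    rw [h1, Real.sqrt_mul (sq_nonneg _), Real.sqrt_sq h3]
    have h4 : Real.exp ((2 * ρ (s1 * s) - K) / (2 * M)) ≤ √(q a) := by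
      apply Real.le_sqrt_of_sq_le
      rw [← Real.exp_nat_mul]
      refine le_trans (le_of_eq ?_) (hqe _ (hscale' s hs) (hρge _ (hscale s hs)))
      congr 1
      push_cast
      field_simp
    have h5 : √(q a) ≤ Real.exp (-((2 * ρ (s1 * s) - K) / (2 * M))) * q a := by
      have h6 : q a = √(q a) * √(q a) := (Real.mul_self_sqrt (hq0 a)).symm
      rw [Real.exp_neg]
      have h7 := Real.exp_pos ((2 * ρ (s1 * s) - K) / (2 * M))
      rw [inv_mul_eq_div, le_div_iff₀ h7]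
      calc √(q a) * Real.exp ((2 * ρ (s1 * s) - K) / (2 * M)) ≤ √(q a) * √(q a) :=
            mul_le_mul_of_nonneg_left h4 (Real.sqrt_nonneg _)
        _ = q a := Real.mul_self_sqrt (hq0 a)
    simp only [hP']
    rw [← ha]
    calc s1 * (1 + q a)⁻¹ * √(q a) ≤
          s1 * (1 + q a)⁻¹ * (Real.exp (-((2 * ρ (s1 * s) - K) / (2 * M))) * q a) :=
          mul_le_mul_of_nonneg_left h5 h3
      _ = _ := by ring
  have hγ'c : ContinuousOn (fun s => √(G (γ s) (deriv γ s) (deriv γ s))) (Icc 0 1) := by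
    have h1 : ContinuousOn (fun s => √(G (γ s) (s1 • X (γ s)) (s1 • X (γ s)))) (Icc 0 1) := by
      have h2 : ContinuousOn (fun s => s1 • X (γ s)) (Icc 0 1) :=
        (hXc.continuous.comp_continuousOn hγc).const_smul s1
      have h3 : ContinuousOn (fun s => G (γ s)) (Icc 0 1) :=
        hG.continuous.comp_continuousOn hγc
      exact ((h3.clm_apply h2).clm_apply h2).sqrt
    refine h1.congr fun s hs => ?_
    simp only [(hγd s hs).deriv]
    rfl
  refine ⟨γ, by simp [hγ, hα0], ?_, hγC, ?_⟩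
  · simp only [hγ, mul_one]
    exact hρs1.le
  have h1 : ∫ s in (0 : ℝ)..1, √(G (γ s) (deriv γ s) (deriv γ s)) ≤ ∫ s in (0 : ℝ)..1, P' s := by
    apply intervalIntegral.integral_mono_on zero_le_one
    · exact (hγ'c.mono (by rw [uIcc_of_le zero_le_one])).intervalIntegrable
    · exact (hP'c.mono (by rw [uIcc_of_le zero_le_one])).intervalIntegrable
    · exact hspeed
  have h2 : ∫ s in (0 : ℝ)..1, P' s = P 1 - P 0 := by
    apply intervalIntegral.integral_eq_sub_of_hasDerivAt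
    · intro s hs
      rw [uIcc_of_le zero_le_one] at hs
      exact hPd s hs
    · exact (hP'c.mono (by rw [uIcc_of_le zero_le_one])).intervalIntegrable
  have h3 : P 1 ≤ M := by
    simp only [hP, mul_one]
    apply mul_le_of_le_one_right hM.le
    rw [Real.exp_le_one_iff, neg_nonpos]
    apply div_nonneg _ (by linarith)
    rw [hρs1]
    linarith
  have h4 : 0 ≤ P 0 := mul_nonneg hM.le (Real.exp_pos _).le
  linarith

end path

end Pool.Agent.ToricKRF.G
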