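import Pool.Agent.Work.MP_a2bf38_gt.G.Flow
import Pool.Agent.Work.MP_a2bf38_gt.G.Herm
import Pool.Agent.Work.MP_a2bf38_gt.G.Ode
import Pool.Agent.Work.MP_a2bf38_gt.Quad

/-!
# The diameter bound from the estimates
-/

open scoped ContDiff ENNReal
open Set

namespace Pool.Agent.ToricKRF.G

section slice

variable {n : ℕ} {φ : ℝ × Cn n → ℝ} {U : Set (ℝ × Cn n)} (hU : IsOpen U)
  (hφ : ContDiffOn ℝ ∞ φ U) {t : ℝ} (ht : ∀ x, (t, x) ∈ U)

theorem D_slice_cn {f : ℝ × Cn n → ℝ} {t : ℝ} {x : Cn n} (hf : DifferentiableAt ℝ f (t, x))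
    (w : Cn n) : D (0, w) f (t, x) = D w (fun y => f (t, y)) x := by
  simp only [D]
  have h1 : HasFDerivAt (fun y : Cn n => ((t, y) : ℝ × Cn n))
      (ContinuousLinearMap.inr ℝ ℝ (Cn n)) x :=
    (hasFDerivAt_const t x).prodMk (hasFDerivAt_id (𝕜 := ℝ) x)
  have h2 := (hf.hasFDerivAt.comp x h1).fderiv
  have h4 : (fun y => f (t, y)) = f ∘ fun y => (t, y) := rfl
  rw [h4, h2]
  simp

include hU hφ ht

theorem contDiff_timeSlice : ContDiff ℝ ∞ (fun x => φ (t, x)) := by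
  rw [contDiff_iff_contDiffAt]
  intro x
  have h1 : ContDiffAt ℝ ∞ φ (t, x) := hφ.contDiffAt (hU.mem_nhds (ht x))
  exact h1.comp x (contDiffAt_const.prodMk contDiffAt_id)

theorem DD_slice (x v w : Cn n) :
    D (0, v) (D (0, w) φ) (t, x) = fderiv ℝ (fderiv ℝ (fun x => φ (t, x))) x v w := by
  rw [D_slice_cn (diffAt_of_contDiffOn hU (contDiffOn_D hU hφ _) (ht x)) v]
  have h1 : (fun y => D (0, w) φ (t, y)) = fun y => fderiv ℝ (fun x => φ (t, x)) y w := by
    funext y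
    exact D_slice_cn (diffAt_of_contDiffOn hU hφ (ht y)) w
  rw [h1]
  exact hess_eq ((contDiff_timeSlice hU hφ ht).of_le (WithTop.coe_le_coe.2 le_top)) x v w

end slice

/-- multiplication by `i` as a linear map -/
noncomputable def JL (n : ℕ) : Cn n →L[ℝ] Cn n :=
  (-(ContinuousLinearMap.snd ℝ (Fin n → ℝ) (Fin n → ℝ))).prod
    (ContinuousLinearMap.fst ℝ (Fin n → ℝ) (Fin n → ℝ))

theorem JL_apply {n : ℕ} (u : Cn n) : JL n u = J u := rfl

/-- the polarised Levi form at a point -/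
noncomputable def Lv {n : ℕ} (φ : ℝ × Cn n → ℝ) (t : ℝ) (w : Cn n) :
    Cn n →L[ℝ] Cn n →L[ℝ] ℝ :=
  (1 / 4 : ℝ) • (fderiv ℝ (fderiv ℝ (fun x => φ (t, x))) w +
    (fderiv ℝ (fderiv ℝ (fun x => φ (t, x))) w).bilinearComp (JL n) (JL n))

theorem Lv_apply {n : ℕ} (φ : ℝ × Cn n → ℝ) (t : ℝ) (w u v : Cn n) :
    Lv φ t w u v = (fderiv ℝ (fderiv ℝ (fun x => φ (t, x))) w u v +
      fderiv ℝ (fderiv ℝ (fun x => φ (t, x))) w (J u) (J v)) / 4 := by
  simp [Lv, JL_apply]
  ring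

/-- the real part of the metric in the directions of `a`, at the points `(a, b)`, `b` fixed. -/
noncomputable def Gb {n : ℕ} (φ : ℝ × Cn n → ℝ) (t : ℝ) (b a : Fin n → ℝ) :
    (Fin n → ℝ) →L[ℝ] (Fin n → ℝ) →L[ℝ] ℝ :=
  (Lv φ t (a, b)).bilinearComp (ContinuousLinearMap.inl ℝ (Fin n → ℝ) (Fin n → ℝ))
    (ContinuousLinearMap.inl ℝ (Fin n → ℝ) (Fin n → ℝ))

theorem Gb_apply {n : ℕ} (φ : ℝ × Cn n → ℝ) (t : ℝ) (b a x y : Fin n → ℝ) :
    Gb φ t b a x y = Lv φ t (a, b) (x, 0) (y, 0) := by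
  simp [Gb]

section forms

variable {n : ℕ} {φ : ℝ × Cn n → ℝ} {U : Set (ℝ × Cn n)} (hU : IsOpen U)
  (hφ : ContDiffOn ℝ ∞ φ U) {t : ℝ} (ht : ∀ x, (t, x) ∈ U)

include hU hφ ht

theorem Lv_self (w u : Cn n) : Lv φ t w u u = lev φ u (t, w) := by
  rw [Lv_apply, ← DD_slice hU hφ ht, ← DD_slice hU hφ ht]
  rfl

theorem Lv_symm (w u v : Cn n) : Lv φ t w u v = Lv φ t w v u := by
  have hc : ContDiff ℝ 2 (fun x => φ (t, x)) :=
    (contDiff_timeSlice hU hφ ht).of_le (WithTop.coe_le_coe.2 le_top)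
  rw [Lv_apply, Lv_apply, hess_symm hc w u v, hess_symm hc w (J u) (J v)]

theorem contDiff_hess :
    ContDiff ℝ 1 (fun w => fderiv ℝ (fderiv ℝ (fun x => φ (t, x))) w) := by
  have h1 := contDiff_timeSlice hU hφ ht
  have h2 : ContDiff ℝ ∞ (fderiv ℝ (fun x => φ (t, x))) := (contDiff_infty_iff_fderiv.1 h1).2
  have h3 : ContDiff ℝ ∞ (fderiv ℝ (fderiv ℝ (fun x => φ (t, x)))) :=
    (contDiff_infty_iff_fderiv.1 h2).2
  exact h3.of_le (by exact_mod_cast le_top)

theorem contDiff_Lv : ContDiff ℝ 1 (Lv φ t) := by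
  rw [contDiff_clm_apply_iff]
  intro u
  rw [contDiff_clm_apply_iff]
  intro v
  have h : (fun w => Lv φ t w u v) = fun w =>
      (fderiv ℝ (fderiv ℝ (fun x => φ (t, x))) w u v +
        fderiv ℝ (fderiv ℝ (fun x => φ (t, x))) w (J u) (J v)) / 4 := by
    funext w
    exact Lv_apply φ t w u v
  rw [h]
  have h1 := contDiff_hess hU hφ ht
  exact (((h1.clm_apply contDiff_const).clm_apply contDiff_const).add
    ((h1.clm_apply contDiff_const).clm_apply contDiff_const)).div_const 4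

theorem contDiff_Gb (b : Fin n → ℝ) : ContDiff ℝ 1 (Gb φ t b) := by
  rw [contDiff_clm_apply_iff]
  intro x
  rw [contDiff_clm_apply_iff]
  intro y
  have h : (fun a => Gb φ t b a x y) = fun a => Lv φ t (a, b) (x, 0) (y, 0) := by
    funext a
    exact Gb_apply φ t b a x y
  rw [h]
  have h1 : ContDiff ℝ 1 (fun a => Lv φ t (a, b)) :=
    (contDiff_Lv hU hφ ht).comp (contDiff_id.prodMk contDiff_const)
  exact (h1.clm_apply contDiff_const).clm_apply contDiff_const

omit hU hφ ht in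
theorem Lv_imag (w : Cn n) (y : Fin n → ℝ) :
    Lv φ t w (0, y) (0, y) = Lv φ t w (y, 0) (y, 0) := by
  rw [Lv_apply, Lv_apply]
  have e1 : J ((0 : Fin n → ℝ), y) = -((y, 0) : Cn n) := by
    ext j <;> simp [J]
  have e2 : J ((y, 0) : Cn n) = (0, y) := by
    ext j <;> simp [J]
  rw [e1, e2]
  simp only [map_neg, neg_apply, neg_neg]
  ring

theorem normSq_eq (w u : Cn n) : normSq φ t w u = 2 * Lv φ t w u u := by
  rw [Lv_self hU hφ ht, lev_eq_cHess hU hφ (ht w) u]
  rfl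

end forms

/-- the triangle inequality for a chain of three curves -/
theorem orbitDist_le_three {n : ℕ} (φ : ℝ × Cn n → ℝ) (t : ℝ) {p P Q q : Cn n}
    {γ0 γ1 γ2 : ℝ → Cn n} (h0 : Joins γ0 p P) (h1 : Joins γ1 P Q) (h2 : Joins γ2 Q q)
    {l0 l1 l2 : ℝ} (hl0 : 0 ≤ l0) (hl1 : 0 ≤ l1) (hl2 : 0 ≤ l2)
    (e0 : length φ t γ0 ≤ l0) (e1 : length φ t γ1 ≤ l1) (e2 : length φ t γ2 ≤ l2) :
    orbitDist φ t p q ≤ ENNReal.ofReal (l0 + l1 + l2) := by
  set c : ℕ → Cn n := fun i => match i with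
    | 0 => p
    | 1 => P
    | 2 => Q
    | _ => q with hc
  set γ : ℕ → ℝ → Cn n := fun i => match i with
    | 0 => γ0
    | 1 => γ1
    | _ => γ2 with hγ
  have hmem : c 0 = p ∧ c 3 = q ∧ ∀ i < 3, Joins (γ i) (c i) (c (i + 1)) := by
    refine ⟨rfl, rfl, fun i hi => ?_⟩
    interval_cases i
    · exact h0
    · exact h1
    · exact h2
  have hle : orbitDist φ t p q ≤ ∑ i ∈ Finset.range 3, ENNReal.ofReal (length φ t (γ i)) := by
    unfold orbitDist
    exact (iInf_le _ 3).trans ((iInf_le _ c).trans ((iInf_le _ γ).trans (iInf_le _ hmem)))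
  refine hle.trans ?_
  rw [Finset.sum_range_succ, Finset.sum_range_succ, Finset.sum_range_one,
    ENNReal.ofReal_add (by positivity) hl2, ENNReal.ofReal_add hl0 hl1]
  exact add_le_add (add_le_add (ENNReal.ofReal_le_ofReal e0) (ENNReal.ofReal_le_ofReal e1))
    (ENNReal.ofReal_le_ofReal e2)

theorem geom_bound {n : ℕ} {ι : Type} [Fintype ι] (ν : ι → Fin n → ℝ)
    (hspan : Submodule.span ℝ (range ν) = ⊤) (C : ℝ) : ∃ C' : ℝ,
    ∀ (φ : ℝ × Cn n → ℝ) (U : Set (ℝ × Cn n)), IsOpen U → ContDiffOn ℝ ∞ φ U →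
    ∀ t : ℝ, (∀ w, (t, w) ∈ U) →
      (∀ w u : Cn n, u ≠ 0 → 0 < lev φ u (t, w)) →
      GoodAt ν C φ t → diam φ t ≤ ENNReal.ofReal C' := by
  classical
  -- coordinates with respect to the rays
  obtain ⟨S, hS⟩ : ∃ S : (Fin n → ℝ) →ₗ[ℝ] (ι → ℝ), ∀ v, ∑ i, S v i • ν i = v := by
    have h1 : LinearMap.range (Fintype.linearCombination ℝ ν) = ⊤ := by
      rw [Fintype.range_linearCombination, hspan]
    obtain ⟨S, hS⟩ := LinearMap.exists_rightInverse_of_surjective _ h1
    refine ⟨S, fun v => ?_⟩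
    have := congrArg (fun L => L v) hS
    simpa [Fintype.linearCombination_apply] using this
  set S' : (Fin n → ℝ) →L[ℝ] (ι → ℝ) := LinearMap.toContinuousLinearMap S with hS'
  set N : ℝ := (Fintype.card ι : ℝ) with hN
  have hN0 : 0 ≤ N := Nat.cast_nonneg _
  set Cp : ℝ := max C 0 with hCp
  have hCp0 : 0 ≤ Cp := le_max_right _ _
  set M : ℝ := 1 + ∑ i, rad (ν i) with hM
  have hM0 : 0 < M := by
    have : 0 ≤ ∑ i, rad (ν i) := Finset.sum_nonneg fun i _ => (rad_pos _).le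
    rw [hM]; linarith
  set K : ℝ := 2 + 2 * N + Cp * M with hK
  have hK0 : 0 ≤ K := by
    rw [hK]
    positivity
  set r1 : ℝ := K / 2 + 1 with hr1
  have hr10 : 0 ≤ r1 := by rw [hr1]; linarith
  -- the bound of the form on `ℝ^n`
  set Dq : ℝ → ℝ := fun c => N * (N * ((‖S'‖ * c) ^ 2 * Cp)) with hDq
  set L1 : ℝ := √(2 * (2 * Dq (2 * r1) + 2 * Dq (2 * Real.pi))) with hL1
  refine ⟨√2 * M + L1 + √2 * M, ?_⟩
  intro φ U hU hφ t ht hpos hgood
  have hLpos : ∀ w u : Cn n, u ≠ 0 → 0 < Lv φ t w u u := fun w u hu => by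
    rw [Lv_self hU hφ ht]
    exact hpos w u hu
  have hL0 : ∀ w u : Cn n, 0 ≤ Lv φ t w u u := by
    intro w u
    by_cases hu : u = 0
    · rw [hu]; simp
    · exact (hLpos w u hu).le
  have hGpos : ∀ b a v : Fin n → ℝ, v ≠ 0 → 0 < Gb φ t b a v v := by
    intro b a v hv
    rw [Gb_apply]
    exact hLpos _ _ fun h => hv (congrArg Prod.fst h)
  have hGsymm : ∀ b a v w : Fin n → ℝ, Gb φ t b a v w = Gb φ t b a w v := by
    intro b a v w
    rw [Gb_apply, Gb_apply]
    exact Lv_symm hU hφ ht _ _ _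
  have hGF : ∀ (b a : Fin n → ℝ) (i : ι), Gb φ t b a (ν i) (ν i) = Fv φ (ν i) (t, (a, b)) := by
    intro b a i
    rw [Gb_apply, Lv_self hU hφ ht]
    rfl
  have hGle : ∀ (b a v : Fin n → ℝ) (c : ℝ), ‖v‖ ≤ c → Gb φ t b a v v ≤ Dq c := by
    intro b a v c hvc
    have h1 := form_sum_le Finset.univ (Gb φ t b a) (hGsymm b a)
      (fun v => form_nonneg (hGpos b a) v) (fun i => S v i • ν i)
    rw [hS] at h1
    refine h1.trans ?_
    rw [Finset.card_univ, hDq]
    apply mul_le_mul_of_nonneg_left _ hN0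
    calc ∑ i, Gb φ t b a (S v i • ν i) (S v i • ν i)
        ≤ ∑ _i : ι, (‖S'‖ * c) ^ 2 * Cp := by
          apply Finset.sum_le_sum
          intro i _
          have h2 : Gb φ t b a (S v i • ν i) (S v i • ν i) =
              (S v i) ^ 2 * Gb φ t b a (ν i) (ν i) := by
            simp only [map_smul, smul_apply, smul_eq_mul]
            ring
          have h3 : |S v i| ≤ ‖S'‖ * c := by
            have h4 : ‖S' v‖ ≤ ‖S'‖ * c := (S'.le_opNorm v).trans
              (mul_le_mul_of_nonneg_left hvc (norm_nonneg _))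
            exact (norm_le_pi_norm (S' v) i).trans h4
          have h5 : (S v i) ^ 2 ≤ (‖S'‖ * c) ^ 2 :=
            sq_le_sq' (by linarith [neg_abs_le (S v i)]) ((le_abs_self _).trans h3)
          have h6 : Gb φ t b a (ν i) (ν i) ≤ Cp := by
            rw [hGF]
            exact (hgood.F_le i _).trans (le_max_left _ _)
          rw [h2]
          calc (S v i) ^ 2 * Gb φ t b a (ν i) (ν i)
              ≤ (S v i) ^ 2 * Cp := mul_le_mul_of_nonneg_left h6 (sq_nonneg _)
            _ ≤ (‖S'‖ * c) ^ 2 * Cp := mul_le_mul_of_nonneg_right h5 hCp0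
      _ = N * ((‖S'‖ * c) ^ 2 * Cp) := by
        rw [Finset.sum_const, Finset.card_univ, nsmul_eq_mul]
  -- the paths to the bounded region
  have hpath : ∀ b a0 : Fin n → ℝ, ∃ γ : ℝ → Fin n → ℝ, γ 0 = a0 ∧ rad (γ 1) ≤ r1 ∧
      (∀ s ∈ Icc (0 : ℝ) 1, ContDiffAt ℝ 1 γ s) ∧
      ∫ s in (0 : ℝ)..1, √(Gb φ t b (γ s) (deriv γ s) (deriv γ s)) ≤ M := by
    intro b a0
    apply exists_inner_path (contDiff_Gb hU hφ ht b) (hGpos b) hM0 hK0
    intro a ha
    apply q_lower (hGpos b a) (hGsymm b a) ν a _ ha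
    intro e
    simp only [hGF]
    exact hgood.B_le (a, b) e
  refine iSup_le fun p => iSup_le fun q => ?_
  obtain ⟨γp, hp0, hp1, hpC, hpL⟩ := hpath p.2 p.1
  obtain ⟨γq, hq0, hq1, hqC, hqL⟩ := hpath q.2 q.1
  have hM1 : 0 ≤ √2 * M := mul_nonneg (Real.sqrt_nonneg _) hM0.le
  -- the direction of the torus
  set m : Fin n → ℤ := fun j => -⌊(q.2 j - p.2 j) / (2 * Real.pi)⌋ with hm
  set v : Fin n → ℝ := fun j => q.2 j + 2 * Real.pi * m j - p.2 j with hv
  have hpi : 0 < 2 * Real.pi := by positivity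
  have hvb : ‖v‖ ≤ 2 * Real.pi := by
    rw [pi_norm_le_iff_of_nonneg hpi.le]
    intro j
    have h1 : v j = 2 * Real.pi * Int.fract ((q.2 j - p.2 j) / (2 * Real.pi)) := by
      simp only [hv, hm, Int.fract]
      push_cast
      field_simp
      ring
    rw [h1, Real.norm_eq_abs, abs_of_nonneg (mul_nonneg hpi.le (Int.fract_nonneg _))]
    have h2 := (Int.fract_lt_one ((q.2 j - p.2 j) / (2 * Real.pi))).le
    nlinarith
  -- the first curve
  have hJ0 : Joins (fun s => (γp s, p.2)) p (γp 1, p.2) := by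
    refine ⟨fun s hs => ((hpC s hs).prodMk contDiffAt_const).contDiffWithinAt, ?_, 0, ?_⟩
    · simp only [hp0]
    · simp
  have hl0 : length φ t (fun s => ((γp s, p.2) : Cn n)) ≤ √2 * M := by
    have h1 : length φ t (fun s => ((γp s, p.2) : Cn n)) =
        √2 * ∫ s in (0 : ℝ)..1, √(Gb φ t p.2 (γp s) (deriv γp s) (deriv γp s)) := by
      rw [← intervalIntegral.integral_const_mul]
      apply intervalIntegral.integral_congr
      intro s hs
      rw [uIcc_of_le zero_le_one] at hs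
      have h2 : HasDerivAt (fun s => ((γp s, p.2) : Cn n)) (deriv γp s, 0) s :=
        ((hpC s hs).differentiableAt one_ne_zero).hasDerivAt.prodMk (hasDerivAt_const s p.2)
      simp only [h2.deriv, normSq_eq hU hφ ht, Gb_apply]
      rw [Real.sqrt_mul (by norm_num)]
    rw [h1]
    exact mul_le_mul_of_nonneg_left hpL (Real.sqrt_nonneg _)
  -- the last curve
  have hrev : ∀ s ∈ Icc (0 : ℝ) 1, (1 - s) ∈ Icc (0 : ℝ) 1 := fun s hs =>
    ⟨by linarith [hs.2], by linarith [hs.1]⟩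
  have hJ2 : Joins (fun s => (γq (1 - s), q.2)) (γq 1, q.2) q := by
    refine ⟨fun s hs => ?_, ?_, 0, ?_⟩
    · have h1 : ContDiffAt ℝ 1 (fun s : ℝ => γq (1 - s)) s :=
        (hqC (1 - s) (hrev s hs)).comp s (contDiffAt_const.sub contDiffAt_id)
      exact (h1.prodMk contDiffAt_const).contDiffWithinAt
    · simp
    · simp [hq0]
  have hl2 : length φ t (fun s => ((γq (1 - s), q.2) : Cn n)) ≤ √2 * M := by
    have h1 : length φ t (fun s => ((γq (1 - s), q.2) : Cn n)) =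
        √2 * ∫ s in (0 : ℝ)..1, √(Gb φ t q.2 (γq (1 - s)) (deriv γq (1 - s))
          (deriv γq (1 - s))) := by
      rw [← intervalIntegral.integral_const_mul]
      apply intervalIntegral.integral_congr
      intro s hs
      rw [uIcc_of_le zero_le_one] at hs
      have h0 : HasDerivAt (fun s : ℝ => 1 - s) (-1) s := by
        simpa using (hasDerivAt_id s).const_sub 1
      have h3 : HasDerivAt (fun s => γq (1 - s)) (-deriv γq (1 - s)) s := by
        have h5 := ((hqC (1 - s) (hrev s hs)).differentiableAt one_ne_zero).hasDerivAt.scomp s h0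
        rw [neg_one_smul] at h5
        exact h5
      have h2 : HasDerivAt (fun s => ((γq (1 - s), q.2) : Cn n)) (-deriv γq (1 - s), 0) s :=
        h3.prodMk (hasDerivAt_const s q.2)
      have h4 : ((-deriv γq (1 - s), 0) : Cn n) = -((deriv γq (1 - s), 0) : Cn n) := by
        simp
      simp only [h2.deriv, normSq_eq hU hφ ht, Gb_apply]
      rw [h4, map_neg, map_neg, neg_apply, neg_neg, Real.sqrt_mul (by norm_num)]
    rw [h1, intervalIntegral.integral_comp_sub_left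
      (fun s => √(Gb φ t q.2 (γq s) (deriv γq s) (deriv γq s))) 1]
    simp only [sub_self, sub_zero]
    exact mul_le_mul_of_nonneg_left hqL (Real.sqrt_nonneg _)
  -- the segment
  set u : Cn n := (γq 1 - γp 1, v) with hu
  set γ1 : ℝ → Cn n := fun s => (γp 1, p.2) + s • u with hγ1
  have hγ1d : ∀ s, HasDerivAt γ1 u s := fun s => by
    have h5 := ((hasDerivAt_id s).smul_const u).const_add ((γp 1, p.2) : Cn n)
    rw [one_smul] at h5
    exact h5
  have hJ1 : Joins γ1 (γp 1, p.2) (γq 1, q.2) := by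
    refine ⟨?_, ?_, m, ?_⟩
    · apply ContDiff.contDiffOn
      exact contDiff_const.add (contDiff_id.smul contDiff_const)
    · simp [hγ1]
    · simp only [hγ1, one_smul, hu]
      refine Prod.ext (by simp) ?_
      funext j
      simp [hv]
  have hΔ : ‖γq 1 - γp 1‖ ≤ 2 * r1 := by
    have h1 := norm_sub_le (γq 1) (γp 1)
    have h2 := (norm_le_rad (γq 1)).trans hq1
    have h3 := (norm_le_rad (γp 1)).trans hp1
    linarith
  have hLu : ∀ w, Lv φ t w u u ≤ 2 * Dq (2 * r1) + 2 * Dq (2 * Real.pi) := by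
    intro w
    have e1 : u = ((γq 1 - γp 1, 0) : Cn n) + ((0, v) : Cn n) := by
      simp [hu]
    set x : Cn n := (γq 1 - γp 1, 0) with hx
    set y : Cn n := (0, v) with hy
    have h1 : Lv φ t w u u = Lv φ t w x x + 2 * Lv φ t w x y + Lv φ t w y y := by
      rw [e1]
      simp only [map_add, add_apply, Lv_symm hU hφ ht w y x]
      ring
    have h2 := hL0 w (x - y)
    have h3 : Lv φ t w (x - y) (x - y) = Lv φ t w x x - 2 * Lv φ t w x y + Lv φ t w y y := by
      simp only [map_sub, sub_apply, Lv_symm hU hφ ht w y x]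
      ring
    have h4 : Lv φ t w x x ≤ Dq (2 * r1) := by
      have := hGle w.2 w.1 _ _ hΔ
      rwa [Gb_apply] at this
    have h5 : Lv φ t w y y ≤ Dq (2 * Real.pi) := by
      have := hGle w.2 w.1 _ _ hvb
      rw [Gb_apply] at this
      rw [hy, Lv_imag]
      exact this
    rw [h3] at h2
    rw [h1]
    linarith
  have hl1 : length φ t γ1 ≤ L1 := by
    have hc : Continuous (fun s => √(normSq φ t (γ1 s) (deriv γ1 s))) := by
      have h1 : (fun s => √(normSq φ t (γ1 s) (deriv γ1 s))) =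
          fun s => √(2 * Lv φ t (γ1 s) u u) := by
        funext s
        rw [(hγ1d s).deriv, normSq_eq hU hφ ht]
      rw [h1]
      have h2 : Continuous (fun s => Lv φ t (γ1 s)) :=
        (contDiff_Lv hU hφ ht).continuous.comp (by rw [hγ1]; fun_prop)
      exact (((h2.clm_apply continuous_const).clm_apply continuous_const).const_smul (2 : ℝ)).sqrt
    have h1 : length φ t γ1 ≤ ∫ _s in (0 : ℝ)..1, L1 := by
      apply intervalIntegral.integral_mono_on zero_le_one (hc.intervalIntegrable _ _)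
        intervalIntegrable_const
      intro s _
      rw [(hγ1d s).deriv, normSq_eq hU hφ ht]
      apply Real.sqrt_le_sqrt
      have := hLu (γ1 s)
      linarith
    simpa using h1
  exact orbitDist_le_three φ t hJ0 hJ1 hJ2 hM1 (Real.sqrt_nonneg _) hM1 hl0 hl1 hl2

end Pool.Agent.ToricKRF.G
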