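import Pool.Agent.Work.MP_a2bf38_gt.G.Evol
import Pool.Agent.Work.MP_a2bf38_gt.G.Estim
import Pool.Agent.Work.MP_a2bf38_gt.G.Geom
import Pool.Agent.Work.MP_a2bf38_gt.G.Chart2

/-!
# The diameter bound on compact toric manifolds
-/

open scoped ContDiff ENNReal ComplexOrder
open Set

namespace Pool.Agent.ToricKRF.G

theorem exists_gflow {n : ℕ} {ι : Type} [Fintype ι] (F : SmoothCompleteFan n ι) {T : ℝ}
    {φ : ℝ × Cn n → ℝ} (h : IsKRF F T φ) : ∃ d : GFlow n ι T, d.φ = φ := by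
  obtain ⟨h1, h2, h3, h4, h5⟩ := chart_facts F h.toIsKahlerFamily
  obtain ⟨U, hU, hsub, hsm⟩ := h.smooth
  refine ⟨⟨F.vec, φ, U, hU, hsub, hsm, h1, h2, h3, ?_, ?_, h5⟩, rfl⟩
  · intro t ht w u hu
    exact lev_pos hU hsm (hsub ⟨ht, mem_univ _⟩) (h4 t ht w) hu
  · intro t ht w
    have hopen : IsOpen (Ioo 0 T ×ˢ (univ : Set (Cn n))) := isOpen_Ioo.prod isOpen_univ
    have hsub' : Ioo 0 T ×ˢ (univ : Set (Cn n)) ⊆ U :=
      (prod_mono Ioo_subset_Ico_self subset_rfl).trans hsub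
    exact evol hopen (hsm.mono hsub') (fun p hp => h4 p.1 (Ioo_subset_Ico_self hp.1) p.2)
      (fun p hp k l => h.flow_re p.1 hp.1 p.2 k l) (fun p hp k l => h.flow_im p.1 hp.1 p.2 k l)
      ⟨ht, mem_univ _⟩

theorem toric_diam_bounded {n : ℕ} {ι : Type} [Finite ι] (F : SmoothCompleteFan n ι) (T : ℝ)
    (φ : ℝ × Cn n → ℝ) (h : IsKRF F T φ) :
    ⨆ t ∈ Ico 0 T, diam φ t < ⊤ := by
  have := Fintype.ofFinite ι
  obtain ⟨d, rfl⟩ := exists_gflow F h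
  obtain ⟨C, -, hC⟩ := d.uniform
  obtain ⟨C', hC'⟩ := geom_bound d.ν d.span_ν C
  refine lt_of_le_of_lt (iSup₂_le fun t ht => ?_) (ENNReal.ofReal_lt_top (r := C'))
  exact hC' d.φ d.U d.isOpen_U d.smooth_φ t (fun x => d.sub_U ⟨ht, mem_univ _⟩)
    (fun w u hu => d.lev_pos t ht w u hu) (hC t ht)

end Pool.Agent.ToricKRF.G
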