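import Pool.Agent.Work.MP_a2bf38_gt.G.Lev
import Pool.Agent.Work.MP_a2bf38_gt.Calc

/-!
# The analytic interface
-/

open scoped ContDiff ENNReal ComplexOrder
open Set

namespace Pool.Agent.ToricKRF.G

/-- the analytic interface: what the chart part and `evol` give -/
structure GFlow (n : ℕ) (ι : Type) [Fintype ι] (T : ℝ) where
  ν : ι → Fin n → ℝ
  φ : ℝ × Cn n → ℝ
  U : Set (ℝ × Cn n)
  isOpen_U : IsOpen U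
  sub_U : Ico 0 T ×ˢ univ ⊆ U
  smooth_φ : ContDiffOn ℝ ∞ φ U
  span_ν : Submodule.span ℝ (range ν) = ⊤
  ν_ne : ∀ i, ν i ≠ 0
  periodic : ∀ t ∈ Ico 0 T, ∀ (v : Fin n → ℝ) (a b : Fin n → ℝ) (m : Fin n → ℤ),
    Fv φ v (t, (a, fun j => b j + 2 * Real.pi * m j)) = Fv φ v (t, (a, b))
  lev_pos : ∀ t ∈ Ico 0 T, ∀ w u : Cn n, u ≠ 0 → 0 < lev φ u (t, w)
  evol : ∀ t ∈ Ioo 0 T, ∀ w : Cn n, ∃ W : Fin n → Cn n, ∀ v : Fin n → ℝ, v ≠ 0 →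
    dt (fun q => Real.log (Fv φ v q)) (t, w) ≤
      ∑ c, lev (fun q => Real.log (Fv φ v q)) (W c) (t, w)
  chart : ∀ t' ∈ Ico 0 T, ∃ C : ℝ, 1 ≤ C ∧ ∀ a : Fin n → ℝ, ∃ c : ι → ℝ, (∀ i, 0 ≤ c i) ∧
    a = -∑ i, c i • ν i ∧ ∀ t ∈ Icc 0 t', ∀ b : Fin n → ℝ, ∀ i,
      Fv φ (ν i) (t, (a, b)) ≤ C * Real.exp (-(2 * c i))

/-- The estimates at the time `t` that imply the diameter bound. -/
structure GoodAt {n : ℕ} {ι : Type} [Fintype ι] (ν : ι → Fin n → ℝ) (C : ℝ)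
    (φ : ℝ × Cn n → ℝ) (t : ℝ) : Prop where
  F_le : ∀ i, ∀ w : Cn n, Fv φ (ν i) (t, w) ≤ C
  B_le : ∀ (w : Cn n) (e : Fin n → ℝ),
    2 * (e ⬝ᵥ w.1) + ∑ i, max (-(e ⬝ᵥ ν i)) 0 * Real.log (Fv φ (ν i) (t, w)) ≤
      C * ∑ i, |e ⬝ᵥ ν i|

end Pool.Agent.ToricKRF.G
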